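import Pool.Agent.H59.M5.Clo

/-!
# (MK) for the records of the ball germs

`Mkf.rec`: along nested joins of records, with the time and additional information `D`, the total
deficit of the tangential digits is at most `n (B n + η J) + CH D`. `cld_ent`: the entropy of the
digits of the base velocity. `rsh`: the rounded germ, an exact function of the record.
-/

set_option autoImplicit false

namespace Pool.SLO

open Finset Real MvPolynomial
open Pool.Agent.H49.Ent Pool.Agent.H32.Dense Pool.STK Pool.KA Pool.KSAT Pool.K2S Pool.PB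
open Pool.SLP

variable {m J : ℕ}

theorem of_cond {Ω : Type} [Fintype Ω] {p : Ω → ℝ} {A : Ω → Prop} (hp : ∀ ω, 0 ≤ p ω) {ω : Ω}
    (h : 0 < Pool.Agent.H49.Ent.cond p A True ω) : A ω := by
  have := ((cond_pos_iff hp A True ω).1 h).2
  rw [this]
  trivial

/-- Everything which is a function of the time and of a closed function of the point. -/
theorem Mkf.det {F : Fam m J} {i₁ : Fin m} {η : ℝ} {A : F.Ω → Prop} (h : Mkf F i₁ η A)
    (hA : 0 < Pe F.p A) {Γ β : Type} (c : F.Ω → Γ) (B : F.Ω → β) {a Q : ℕ} {s : ℝ} (haQ : a ≤ Q)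
    (hQ : Q ≤ J) (hc : Det (Pool.Agent.H49.Ent.cond F.p A True) (Fam.pt F) c)
    (hcT : Det (Pool.Agent.H49.Ent.cond F.p A True) c (F.T1 a))
    (hs : CH (Pool.Agent.H49.Ent.cond F.p A True) c (slam F a) ≤ s)
    (hB : Det (Pool.Agent.H49.Ent.cond F.p A True) (fun ω => (F.T ω, c ω)) B) :
    ((m : ℝ) - 1) * (((Q : ℝ) - a) * Real.log 2) - (m * s + η * J) ≤
      CH (Pool.Agent.H49.Ent.cond F.p A True) (tdg i₁ Q F.x) B :=
  (h.tan hA c haQ hQ hc hcT hs).trans
    (CH_mono_cond (isLaw_cond F.isLaw hA).nonneg hB)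

/-- **(MK) for the joins of the records.** -/
theorem mkf_rec (m K : ℕ) : ∃ B : ℝ, 0 ≤ B ∧ ∀ (J : ℕ) (F : Fam m J) (i₁ : Fin m) (η : ℝ)
    (A : F.Ω → Prop), Mkf F i₁ η A → 0 < Pe F.p A → ∀ (n r : ℕ) (a P g : ℕ → ℕ)
    (G : ℕ → (Fin m → ℤ) × (ℕ × F.ζ) → MvPolynomial (Fin m) ℝ)
    (H : ℕ → ((Fin m → ℝ) × (Fin m → ℝ)) × F.ζ × ℕ → MvPolynomial (Fin m) ℝ) (Δ : Type)
    (D : F.Ω → Δ), r ≤ J → (∀ i < n, a i ≤ a (i + 1)) → (∀ i ≤ n, a i ≤ J) →
    (∀ i < n, P i ≤ g i) → (∀ i < n, ∀ y, (G i y).totalDegree ≤ K) →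
    (∀ i < n, ∀ s, (H i s).totalDegree ≤ K) →
    (∀ i < n, ∀ ω, A ω → ∀ b : Fin m → ℝ, (∀ j, |b j - bp F i₁ ω j| ≤ 1 / 2 ^ (a i)) →
      |eval b (G i (ptr F r ω)) - eval b (H i (slam F (a i) ω))| ≤ 1 / 2 ^ (g i)) →
    ∑ i ∈ range n, (((m : ℝ) - 1) * (((a (i + 1) : ℝ) - a i) * Real.log 2) -
      CH (Pool.Agent.H49.Ent.cond F.p A True) (tdg i₁ (a (i + 1)) F.x)
        (fun ω => ((F.T ω, jn (fun k => rcd F i₁ r (a k) (P k) (G k)) i ω), D ω))) ≤
      n * (B * n + η * J) + CH (Pool.Agent.H49.Ent.cond F.p A True) D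
        (fun ω => (F.T ω, jn (fun k => rcd F i₁ r (a k) (P k) (G k)) 0 ω)) := by
  obtain ⟨B, hB0, hB⟩ := rcd_clo m K
  refine ⟨m * B, by positivity, ?_⟩
  intro J F i₁ η A hM hA n r a P g G H Δ D hr ha haJ hP hG hH hcl
  have hq := isLaw_cond F.isLaw hA
  have hq0 := hq.nonneg
  have hmono : ∀ i j, i ≤ j → j ≤ n → a i ≤ a j := by
    intro i j hij
    induction hij with
    | refl => intro _; exact le_rfl
    | step _ ih => intro hj; exact (ih (by omega)).trans (ha _ (by omega))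
  have h1 := hM.sum hA a (fun _ => ℕ → (F.ζ × (Fin m → ℤ)) × ((Fin m →₀ ℕ) → ℤ))
    (fun i => jn (fun k => rcd F i₁ r (a k) (P k) (G k)) i) D (s := n * B) (n := n) ha haJ
    (by
      intro i hi ω ω' _ _ hh
      rw [jn_eq]
      intro k hk
      exact rcd_pt hr (haJ k (by omega)) hh)
    (by
      intro i hi ω ω' _ _ hh
      have e1 := jn_eq.1 hh i le_rfl
      have e2 : bc F i₁ (a i) ω = bc F i₁ (a i) ω' :=
        (Prod.ext_iff.1 (Prod.ext_iff.1 e1).1).2
      exact ((bc_iff F i₁ (haJ i hi.le) ω ω').1 e2).2)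
    (by
      intro i hi ω ω' _ _ hh
      have e00 : jn (fun k => rcd F i₁ r (a k) (P k) (G k)) (i + 1) ω =
          jn (fun k => rcd F i₁ r (a k) (P k) (G k)) (i + 1) ω' := (Prod.ext_iff.1 hh).2
      have e0 := jn_eq.1 e00
      have e1 := e0 (i + 1) le_rfl
      have e2 : bc F i₁ (a (i + 1)) ω = bc F i₁ (a (i + 1)) ω' :=
        (Prod.ext_iff.1 (Prod.ext_iff.1 e1).1).2
      refine Prod.ext ?_ ((bc_iff F i₁ (haJ (i + 1) hi) ω ω').1 e2).1
      exact jn_eq.2 fun k hk => e0 k (by omega))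
    (by
      intro i hi
      refine (jn_ent hq0 _ _ i).trans ?_
      have h2 : ∀ k ∈ range (i + 1), CH (Pool.Agent.H49.Ent.cond F.p A True)
          (rcd F i₁ r (a k) (P k) (G k)) (slam F (a i)) ≤ B := by
        intro k hk
        have hk' := Finset.mem_range.1 hk
        have hki := hmono k i (by omega) hi.le
        have h3 : CH (Pool.Agent.H49.Ent.cond F.p A True)
            (rcd F i₁ r (a k) (P k) (G k)) (slam F (a i)) ≤
            CH (Pool.Agent.H49.Ent.cond F.p A True)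
              (rcd F i₁ r (a k) (P k) (G k)) (slam F (a k)) := by
          refine CH_mono_cond hq0 ?_
          intro ω ω' _ _ hh
          rw [slam_coarse F hki (haJ i hi.le) ω, slam_coarse F hki (haJ i hi.le) ω', hh]
        refine h3.trans (hB J F i₁ r (a k) (P k) (g k) _ (G k) (H k) hq (haJ k (by omega))
          (hP k (by omega)) (hG k (by omega)) (hH k (by omega)) ?_)
        intro ω hω b hb
        exact hcl k (by omega) ω (of_cond F.isLaw.nonneg hω) b hb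
      refine (Finset.sum_le_sum h2).trans ?_
      rw [Finset.sum_const, Finset.card_range, nsmul_eq_mul]
      refine mul_le_mul_of_nonneg_right ?_ hB0
      exact_mod_cast hi)
  refine h1.trans (le_of_eq ?_)
  ring

/-- The entropy of the digits of the base velocity. -/
theorem cld_ent (F : Fam m J) {p : F.Ω → ℝ} (hp : IsLaw p) (i₁ : Fin m) (q : ℕ) {T : Type}
    (W : F.Ω → T) : CH p (cld F i₁ q) W ≤ m * (q * Real.log 2 + Real.log 7) := by
  have h := CH_le_vec hp.nonneg hp.sum_one (cld F i₁ q) W (fun _ => 2 * 2 ^ q + 1) (by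
    intro ω ω' _ _ _ i
    have hq : (0 : ℝ) < 2 ^ q := by positivity
    unfold cld
    by_cases hi : i = i₁
    · rw [if_pos hi, if_pos hi, sub_self, Int.cast_zero, abs_zero]
      positivity
    · rw [if_neg hi, if_neg hi]
      refine floor_near ?_
      rw [← mul_sub, abs_mul, abs_of_pos hq]
      have h1 := abs_le.1 (F.dir ω i)
      have h2 := abs_le.1 (F.dir ω' i)
      have h3 : |F.d ω i - F.d ω' i| ≤ 2 := by
        rw [abs_le]
        constructor <;> linarith [h1.1, h1.2, h2.1, h2.2]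
      calc (2 : ℝ) ^ q * |F.d ω i - F.d ω' i| ≤ 2 ^ q * 2 := mul_le_mul_of_nonneg_left h3 hq.le
        _ = 2 * 2 ^ q := by ring)
  rw [Ex_const hp.sum_one] at h
  refine h.trans (mul_le_mul_of_nonneg_left ?_ (Nat.cast_nonneg m))
  have h1 : (1 : ℝ) ≤ 2 ^ q := one_le_pow₀ (by norm_num)
  have h2 : 2 * (2 * 2 ^ q + 1) + 1 ≤ 7 * (2 : ℝ) ^ q := by linarith
  refine (Real.log_le_log (by positivity) h2).trans (le_of_eq ?_)
  rw [Real.log_mul (by norm_num) (by positivity), Real.log_pow]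
  ring

/-- **The rounded germ** in the coordinates of the cell. -/
noncomputable def rsh (F : Fam m J) (i₁ : Fin m) (r a K P : ℕ)
    (G : (Fin m → ℤ) × (ℕ × F.ζ) → MvPolynomial (Fin m) ℝ) (ω : F.Ω) : MvPolynomial (Fin m) ℝ :=
  rdp K P (Pool.OVN.pul a (bc F i₁ a ω) (G (ptr F r ω)))

/-- The rounded germ is a function of the record. -/
theorem rsh_rcd {F : Fam m J} {i₁ : Fin m} {r a K P : ℕ}
    {G : (Fin m → ℤ) × (ℕ × F.ζ) → MvPolynomial (Fin m) ℝ} {ω ω' : F.Ω}
    (h : rcd F i₁ r a P G ω = rcd F i₁ r a P G ω') :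
    rsh F i₁ r a K P G ω = rsh F i₁ r a K P G ω' := by
  have h1 : Pool.OVN.hz P (Pool.OVN.pul a (bc F i₁ a ω) (G (ptr F r ω))) =
      Pool.OVN.hz P (Pool.OVN.pul a (bc F i₁ a ω') (G (ptr F r ω'))) := (Prod.ext_iff.1 h).2
  unfold rsh rdp
  exact congrArg (rdz K P) h1

theorem rsh_near {F : Fam m J} {i₁ : Fin m} {r a K P : ℕ}
    {G : (Fin m → ℤ) × (ℕ × F.ζ) → MvPolynomial (Fin m) ℝ} (hG : ∀ y, (G y).totalDegree ≤ K)
    (ω : F.Ω) {z : Fin m → ℝ} (hz : ∀ i, |z i| ≤ 1) :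
    |eval (fun j => (bc F i₁ a ω j : ℝ) / 2 ^ a + 1 / 2 ^ a * z j) (G (ptr F r ω)) -
      eval z (rsh F i₁ r a K P G ω)| ≤ (mons m K).card / 2 ^ P := by
  rw [← eval_pul]
  exact abs_rdp_le ((totalDegree_pul_le _ _ _).trans (hG _)) hz

end Pool.SLO
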