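import Pool.Agent.H59.M5.H3F

/-!
# The context of a ball is a function of the static record

`ctx_rcd`: the context of the window of length `2 ^ (-a)` and of the radius `2 ^ (-a)` is a function
of the time, of the record of the germ and of the digits of the base velocity, up to a bounded
entropy.
-/

set_option autoImplicit false

namespace Pool.SLO

open Finset Real MvPolynomial
open Pool.Agent.H49.Ent Pool.Agent.H32.Dense Pool.STK Pool.KA Pool.KSAT Pool.K2S Pool.PB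
open Pool.SLP

variable {m J : ℕ}

/-- From the unit cube to a larger cube. -/
theorem ext_cube (m K : ℕ) (R : ℝ) (hR : 1 ≤ R) : ∃ C : ℝ, 0 ≤ C ∧
    ∀ (P : MvPolynomial (Fin m) ℝ) (M : ℝ), P.totalDegree ≤ K →
    (∀ b : Fin m → ℝ, (∀ i, 0 ≤ b i ∧ b i ≤ 1) → |eval b P| ≤ M) →
    ∀ b : Fin m → ℝ, (∀ i, |b i| ≤ R) → |eval b P| ≤ C * M := by
  classical
  obtain ⟨B, hB0, hB⟩ := coef_cube m K
  refine ⟨(mons m K).card * (B * R ^ K), by positivity, ?_⟩
  intro P M hP hM b hb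
  have hM0 : 0 ≤ M := (abs_nonneg _).trans (hM (fun _ => 0) fun i => ⟨le_rfl, zero_le_one⟩)
  rw [eval_of_degree hP]
  refine (Finset.abs_sum_le_sum_abs _ _).trans ?_
  have h : ∀ s ∈ mons m K, |coeff s P * ∏ i, b i ^ s i| ≤ B * M * R ^ K := by
    intro s hs
    rw [abs_mul]
    refine mul_le_mul (hB P M hP hM s) ?_ (abs_nonneg _) (by positivity)
    rw [Finset.abs_prod]
    have h1 : ∀ i ∈ (Finset.univ : Finset (Fin m)), |b i ^ s i| ≤ R ^ s i := by
      intro i _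
      rw [abs_pow]
      exact pow_le_pow_left₀ (abs_nonneg _) (hb i) _
    refine (Finset.prod_le_prod (fun i _ => abs_nonneg _) h1).trans ?_
    rw [Finset.prod_pow_eq_pow_sum]
    refine pow_le_pow_right₀ hR ?_
    have h2 := mem_mons.1 hs
    rw [Finsupp.sum_fintype _ _ (fun _ => rfl)] at h2
    exact h2
  refine (Finset.sum_le_sum h).trans (le_of_eq ?_)
  rw [Finset.sum_const, nsmul_eq_mul]
  ring

/-- The velocity of the box. -/
theorem dq_le (F : Fam m J) (i₁ : Fin m) (q : ℕ) (ω : F.Ω) (j : Fin m) :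
    |dq F i₁ q ω j| ≤ 1 := by
  unfold dq
  split_ifs with h
  · rw [abs_zero]
    exact zero_le_one
  · have hq : (0 : ℝ) < 2 ^ q := by positivity
    have h1 := abs_le.1 (F.dir ω j)
    have h2 : (-(2 ^ q : ℕ) : ℤ) ≤ ⌊(2 : ℝ) ^ q * F.d ω j⌋ := by
      rw [Int.le_floor]
      push_cast
      nlinarith
    have h3 : (-(2 : ℝ) ^ q) ≤ (⌊(2 : ℝ) ^ q * F.d ω j⌋ : ℝ) := by exact_mod_cast h2
    have h4 := Int.floor_le ((2 : ℝ) ^ q * F.d ω j)
    rw [abs_div, abs_of_pos hq, div_le_one hq, abs_le]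
    constructor <;> nlinarith

/-- The position at the beginning of the window of length `2 ^ (-a)` is near the position. -/
theorem x1_x (F : Fam m J) {a : ℕ} (ha : a ≤ J) (ω : F.Ω) (j : Fin m) :
    |(2 : ℝ) ^ a * F.x1 a ω j - 2 ^ a * F.x ω j| ≤ 1 := by
  have h1 := T1_real F ha ω
  have e : (2 : ℝ) ^ a * F.x1 a ω j - 2 ^ a * F.x ω j =
      -((2 ^ a * F.t ω - F.T1 a ω) * F.d ω j) := by
    unfold Fam.x1 Fam.x
    field_simp
    ring
  rw [e, abs_neg, abs_mul]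
  calc _ ≤ (1 : ℝ) * 1 := by
        refine mul_le_mul ?_ (F.dir ω j) (abs_nonneg _) (by norm_num)
        rw [abs_le]
        constructor <;> linarith [h1.1, h1.2]
    _ = 1 := one_mul 1

/-- The position in the coordinates of the cell of a point of the box. -/
noncomputable def zc (F : Fam m J) (i₁ : Fin m) (a q : ℕ) (ω : F.Ω) (z : Fin m → ℝ) : Fin m → ℝ :=
  fun j => 2 ^ a * sb i₁ a a (cw F i₁ a a ω) (dq F i₁ q ω) z j - bc F i₁ a ω j

theorem zc_eq (F : Fam m J) (i₁ : Fin m) (a q : ℕ) (ω : F.Ω) (z : Fin m → ℝ) :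
    (fun j => (bc F i₁ a ω j : ℝ) / 2 ^ a + 1 / 2 ^ a * zc F i₁ a q ω z j) =
      sb i₁ a a (cw F i₁ a a ω) (dq F i₁ q ω) z := by
  funext j
  unfold zc
  field_simp
  ring

theorem zc_le (F : Fam m J) (i₁ : Fin m) {a : ℕ} (ha : a ≤ J) (q : ℕ) (ω : F.Ω)
    {z : Fin m → ℝ} (hz : ∀ i, 0 ≤ z i ∧ z i ≤ 1) (j : Fin m) : |zc F i₁ a q ω z j| ≤ 4 := by
  have hap : (0 : ℝ) < 2 ^ a := by positivity
  unfold zc sb
  by_cases hj : j = i₁
  · rw [if_pos hj, hj, bc_time F i₁ ha]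
    unfold cw
    rw [if_pos rfl]
    have e : (2 : ℝ) ^ a * ((F.T1 a ω : ℝ) / 2 ^ a + z i₁ / 2 ^ a) - ((F.T1 a ω : ℤ) : ℝ) =
        z i₁ := by
      push_cast
      field_simp
      ring
    rw [e, abs_le]
    constructor <;> linarith [(hz i₁).1, (hz i₁).2]
  · rw [if_neg hj, bc_ne F i₁ a ω hj]
    unfold cw
    rw [if_neg hj]
    have h1 : |(⌊(2 : ℝ) ^ a * F.x1 a ω j⌋ : ℝ) - ⌊(2 : ℝ) ^ a * F.x ω j⌋| ≤ 2 := by
      have := floor_near (x1_x F ha ω j)
      push_cast at this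
      linarith
    have h2 : |dq F i₁ q ω j * z i₁| ≤ 1 := by
      rw [abs_mul]
      calc _ ≤ (1 : ℝ) * 1 := by
            refine mul_le_mul (dq_le F i₁ q ω j) ?_ (abs_nonneg _) (by norm_num)
            rw [abs_le]
            constructor <;> linarith [(hz i₁).1, (hz i₁).2]
        _ = 1 := one_mul 1
    have e : (2 : ℝ) ^ a * ((⌊(2 : ℝ) ^ a * F.x1 a ω j⌋ : ℝ) / 2 ^ a +
        dq F i₁ q ω j * (z i₁ / 2 ^ a) + z j / 2 ^ a) - ((F.X a ω j : ℤ) : ℝ) =
        ((⌊(2 : ℝ) ^ a * F.x1 a ω j⌋ : ℝ) - ⌊(2 : ℝ) ^ a * F.x ω j⌋) + dq F i₁ q ω j * z i₁ +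
          z j := by
      change (2 : ℝ) ^ a * ((⌊(2 : ℝ) ^ a * F.x1 a ω j⌋ : ℝ) / 2 ^ a +
        dq F i₁ q ω j * (z i₁ / 2 ^ a) + z j / 2 ^ a) - (⌊(2 : ℝ) ^ a * F.x ω j⌋ : ℝ) = _
      field_simp
      ring
    rw [e]
    have h3 := abs_le.1 h1
    have h4 := abs_le.1 h2
    rw [abs_le]
    constructor <;> linarith [(hz j).1, (hz j).2, h3.1, h3.2, h4.1, h4.2]

/-- **The context of a ball is a function of the static record.** -/
theorem ctx_rcd (m K : ℕ) : ∃ B : ℝ, 0 ≤ B ∧ ∀ (J : ℕ) (F : Fam m J) (i₁ : Fin m)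
    (r a q P g : ℕ) (p : F.Ω → ℝ) (G : (Fin m → ℤ) × (ℕ × F.ζ) → MvPolynomial (Fin m) ℝ)
    (H : ((Fin m → ℝ) × (Fin m → ℝ)) × F.ζ × ℕ → MvPolynomial (Fin m) ℝ), IsLaw p → a ≤ J →
    P ≤ g → (∀ y, (G y).totalDegree ≤ K) → (∀ s, (H s).totalDegree ≤ K) →
    (∀ ω, 0 < p ω → ∀ b : Fin m → ℝ, (∀ j, |b j - bp F i₁ ω j| ≤ 1 / 2 ^ a) →
      |eval b (G (ptr F r ω)) - eval b (H (slam F a ω))| ≤ 1 / 2 ^ g) →
    CH p (ctx F i₁ a a q P H) (fun ω => ((F.T ω, rcd F i₁ r a P G ω), cld F i₁ q ω)) ≤ B := by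
  classical
  obtain ⟨B₁, hB₁0, hB₁⟩ := ext_cube m K 4 (by norm_num)
  obtain ⟨B₂, hB₂0, hB₂⟩ := hz_ent m K
  obtain ⟨N, hN⟩ : ∃ N : ℝ, N = (mons m K).card := ⟨_, rfl⟩
  have hN0 : 0 ≤ N := by rw [hN]; exact Nat.cast_nonneg _
  obtain ⟨M, hM⟩ : ∃ M : ℝ, M = B₁ * (2 + 2 * N) := ⟨_, rfl⟩
  have hM0 : 0 ≤ M := by rw [hM]; positivity
  have hl0 : 0 ≤ Real.log (2 * (B₂ * M + 1) + 1) := Real.log_nonneg (by
    have : 0 ≤ B₂ * M := by positivity
    linarith)
  have hl7 : 0 ≤ Real.log 7 := Real.log_nonneg (by norm_num)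
  refine ⟨m * Real.log 7 + (mons m K).card * Real.log (2 * (B₂ * M + 1) + 1), by positivity, ?_⟩
  intro J F i₁ r a q P g p G H hp ha hPg hG hH hcl
  have hp0 := hp.nonneg
  set W : F.Ω → (ℕ × ((F.ζ × (Fin m → ℤ)) × ((Fin m →₀ ℕ) → ℤ))) × (Fin m → ℤ) :=
    fun ω => ((F.T ω, rcd F i₁ r a P G ω), cld F i₁ q ω) with hW
  have hWT : ∀ ω ω', W ω = W ω' → F.T ω = F.T ω' ∧ rcd F i₁ r a P G ω = rcd F i₁ r a P G ω' ∧
      cld F i₁ q ω = cld F i₁ q ω' := fun ω ω' h =>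
    ⟨(Prod.ext_iff.1 (Prod.ext_iff.1 h).1).1, (Prod.ext_iff.1 (Prod.ext_iff.1 h).1).2,
      (Prod.ext_iff.1 h).2⟩
  have hbc : ∀ ω ω', rcd F i₁ r a P G ω = rcd F i₁ r a P G ω' →
      bc F i₁ a ω = bc F i₁ a ω' ∧ F.Z ω = F.Z ω' := fun ω ω' h =>
    ⟨(Prod.ext_iff.1 (Prod.ext_iff.1 h).1).2, (Prod.ext_iff.1 (Prod.ext_iff.1 h).1).1⟩
  have hdd : ∀ ω ω', cld F i₁ q ω = cld F i₁ q ω' → ∀ i, i ≠ i₁ → |F.d ω i - F.d ω' i| ≤ 1 := by
    intro ω ω' h i hi
    have hq : (0 : ℝ) < 2 ^ q := by positivity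
    have f1 : ⌊(2 : ℝ) ^ q * F.d ω i⌋ = ⌊(2 : ℝ) ^ q * F.d ω' i⌋ := by
      have := congrFun h i
      unfold cld at this
      rw [if_neg hi, if_neg hi] at this
      exact this
    have a1 := Int.floor_le ((2 : ℝ) ^ q * F.d ω i)
    have a2 := Int.lt_floor_add_one ((2 : ℝ) ^ q * F.d ω i)
    have a3 := Int.floor_le ((2 : ℝ) ^ q * F.d ω' i)
    have a4 := Int.lt_floor_add_one ((2 : ℝ) ^ q * F.d ω' i)
    rw [f1] at a1 a2
    have f2 : |(2 : ℝ) ^ q * (F.d ω i - F.d ω' i)| ≤ 1 := by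
      rw [mul_sub, abs_le]
      constructor <;> linarith
    rw [abs_mul, abs_of_pos hq] at f2
    have f3 : (1 : ℝ) ≤ 2 ^ q := one_le_pow₀ (by norm_num)
    calc |F.d ω i - F.d ω' i| = 1 * |F.d ω i - F.d ω' i| := (one_mul _).symm
      _ ≤ 2 ^ q * |F.d ω i - F.d ω' i| := mul_le_mul_of_nonneg_right f3 (abs_nonneg _)
      _ ≤ 1 := f2
  -- the cell at the beginning of the window
  have h1 : CH p (clp F i₁ a a) W ≤ m * Real.log 7 := by
    have h := CH_le_vec hp.nonneg hp.sum_one (clp F i₁ a a) W (fun _ => 3) (by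
      intro ω ω' _ _ hh i
      obtain ⟨eT, eR, eD⟩ := hWT ω ω' hh
      obtain ⟨eb, -⟩ := hbc ω ω' eR
      unfold clp
      by_cases hi : i = i₁
      · rw [if_pos hi, if_pos hi, sub_self, Int.cast_zero, abs_zero]
        norm_num
      · rw [if_neg hi, if_neg hi]
        have hfl := floor_near (x := (2 : ℝ) ^ a * F.x1 a ω i)
          (y := 2 ^ a * F.x1 a ω' i) (r := 2) ?_
        · norm_num at hfl ⊢
          exact hfl
        have e1 : ⌊(2 : ℝ) ^ a * F.x ω i⌋ = ⌊(2 : ℝ) ^ a * F.x ω' i⌋ := by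
          have := congrFun eb i
          rw [bc_ne F i₁ a ω hi, bc_ne F i₁ a ω' hi] at this
          exact this
        have a1 := Int.floor_le ((2 : ℝ) ^ a * F.x ω i)
        have a2 := Int.lt_floor_add_one ((2 : ℝ) ^ a * F.x ω i)
        have a3 := Int.floor_le ((2 : ℝ) ^ a * F.x ω' i)
        have a4 := Int.lt_floor_add_one ((2 : ℝ) ^ a * F.x ω' i)
        rw [e1] at a1 a2
        have ht : F.t ω = F.t ω' := by
          unfold Fam.t
          rw [eT]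
        have hT1 : F.T1 a ω = F.T1 a ω' := by
          unfold Fam.T1
          rw [eT]
        have e2 : (2 : ℝ) ^ a * F.x1 a ω i - 2 ^ a * F.x1 a ω' i =
            (2 ^ a * F.x ω i - 2 ^ a * F.x ω' i) -
              (2 ^ a * F.t ω - F.T1 a ω) * (F.d ω i - F.d ω' i) := by
          unfold Fam.x1 Fam.x
          rw [← ht, ← hT1]
          field_simp
          ring
        have h5 := T1_real F ha ω
        have h6 : |(2 ^ a * F.t ω - F.T1 a ω) * (F.d ω i - F.d ω' i)| ≤ 1 := by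
          rw [abs_mul]
          calc _ ≤ (1 : ℝ) * 1 := by
                refine mul_le_mul ?_ (hdd ω ω' eD i hi) (abs_nonneg _) (by norm_num)
                rw [abs_le]
                constructor <;> linarith [h5.1, h5.2]
            _ = 1 := one_mul 1
        rw [e2]
        have h7 := abs_le.1 h6
        rw [abs_le]
        constructor <;> linarith [h7.1, h7.2])
    rw [Ex_const hp.sum_one] at h
    norm_num at h ⊢
    exact h
  -- the coefficients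
  have h2 : CH p (fun ω => Pool.OVN.hz P (plb F i₁ a a q ω (H (slam F a ω))))
      (fun ω => (clp F i₁ a a ω, W ω)) ≤
      (mons m K).card * Real.log (2 * (B₂ * M + 1) + 1) := by
    refine hB₂ F.Ω _ p (fun ω => (clp F i₁ a a ω, W ω))
      (fun ω => plb F i₁ a a q ω (H (slam F a ω))) P M hp hM0
      (fun ω _ => (totalDegree_pull_le _ _ _ _ _ _).trans (hH _)) ?_
    intro ω ω' hω hω' hh z hz
    obtain ⟨eT, eR, eD⟩ := hWT ω ω' (Prod.ext_iff.1 hh).2
    obtain ⟨eb, -⟩ := hbc ω ω' eR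
    have ec : clp F i₁ a a ω = clp F i₁ a a ω' := (Prod.ext_iff.1 hh).1
    have hT1 : F.T1 a ω = F.T1 a ω' := by
      unfold Fam.T1
      rw [eT]
    have hcw : cw F i₁ a a ω = cw F i₁ a a ω' := by
      rw [cw_eq, cw_eq, hT1, ec]
    have hdq : dq F i₁ q ω = dq F i₁ q ω' := by
      rw [dq_eq, dq_eq, eD]
    have hzc : zc F i₁ a q ω z = zc F i₁ a q ω' z := by
      unfold zc
      rw [hcw, hdq, eb]
    have hzl := zc_le F i₁ ha q ω hz
    -- the three comparisons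
    have k1 : ∀ ω₀, 0 < p ω₀ → zc F i₁ a q ω₀ z = zc F i₁ a q ω z →
        |eval (sb i₁ a a (cw F i₁ a a ω₀) (dq F i₁ q ω₀) z) (G (ptr F r ω₀)) -
          eval (sb i₁ a a (cw F i₁ a a ω₀) (dq F i₁ q ω₀) z) (H (slam F a ω₀))| ≤
          B₁ * (1 / 2 ^ g) := by
      intro ω₀ h0 hz0
      have h3 := hB₁ (Pool.OVN.pul a (bc F i₁ a ω₀) (G (ptr F r ω₀)) -
        Pool.OVN.pul a (bc F i₁ a ω₀) (H (slam F a ω₀))) (1 / 2 ^ g)
        ((totalDegree_sub _ _).trans (max_le ((totalDegree_pul_le _ _ _).trans (hG _))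
          ((totalDegree_pul_le _ _ _).trans (hH _)))) (by
          intro b hb
          rw [map_sub, eval_pul, eval_pul]
          exact hcl ω₀ h0 _ (cell_near hb)) (zc F i₁ a q ω₀ z) (by rw [hz0]; exact hzl)
      rw [map_sub, eval_pul, eval_pul, zc_eq] at h3
      exact h3
    have k2 : |eval (zc F i₁ a q ω z) (Pool.OVN.pul a (bc F i₁ a ω) (G (ptr F r ω))) -
        eval (zc F i₁ a q ω z) (Pool.OVN.pul a (bc F i₁ a ω') (G (ptr F r ω')))| ≤
        B₁ * (2 * N / 2 ^ P) := by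
      have h3 := hB₁ (Pool.OVN.pul a (bc F i₁ a ω) (G (ptr F r ω)) -
        Pool.OVN.pul a (bc F i₁ a ω') (G (ptr F r ω'))) (2 * N / 2 ^ P)
        ((totalDegree_sub _ _).trans (max_le ((totalDegree_pul_le _ _ _).trans (hG _))
          ((totalDegree_pul_le _ _ _).trans (hG _)))) (by
          intro b hb
          have hb1 : ∀ i, |b i| ≤ 1 := by
            intro i
            rw [abs_le]
            constructor <;> linarith [(hb i).1, (hb i).2]
          rw [map_sub]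
          have g1 := abs_rdp_le (P := P) ((totalDegree_pul_le a (bc F i₁ a ω)
            (G (ptr F r ω))).trans (hG _)) hb1
          have g2 := abs_rdp_le (P := P) ((totalDegree_pul_le a (bc F i₁ a ω')
            (G (ptr F r ω'))).trans (hG _)) hb1
          have g3 : rdp K P (Pool.OVN.pul a (bc F i₁ a ω) (G (ptr F r ω))) =
              rdp K P (Pool.OVN.pul a (bc F i₁ a ω') (G (ptr F r ω'))) :=
            rsh_rcd (F := F) (i₁ := i₁) (r := r) (a := a) (K := K) (P := P) (G := G) eR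
          rw [← g3] at g2
          rw [← hN] at g1 g2
          have g4 : 2 * N / 2 ^ P = N / 2 ^ P + N / 2 ^ P := by ring
          rw [g4, abs_le]
          rw [abs_le] at g1 g2
          constructor <;> linarith [g1.1, g1.2, g2.1, g2.2]) (zc F i₁ a q ω z) hzl
      rw [map_sub] at h3
      exact h3
    have k3 := k1 ω hω rfl
    have k4 := k1 ω' hω' hzc.symm
    have e1 : eval (zc F i₁ a q ω z) (Pool.OVN.pul a (bc F i₁ a ω) (G (ptr F r ω))) =
        eval (sb i₁ a a (cw F i₁ a a ω) (dq F i₁ q ω) z) (G (ptr F r ω)) := by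
      rw [eval_pul, zc_eq]
    have e2 : eval (zc F i₁ a q ω z) (Pool.OVN.pul a (bc F i₁ a ω') (G (ptr F r ω'))) =
        eval (sb i₁ a a (cw F i₁ a a ω') (dq F i₁ q ω') z) (G (ptr F r ω')) := by
      rw [hzc, eval_pul, zc_eq]
    rw [e1, e2] at k2
    have e3 : eval z (plb F i₁ a a q ω (H (slam F a ω))) =
        eval (sb i₁ a a (cw F i₁ a a ω) (dq F i₁ q ω) z) (H (slam F a ω)) := by
      unfold plb
      rw [eval_pull]
    have e4 : eval z (plb F i₁ a a q ω' (H (slam F a ω'))) =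
        eval (sb i₁ a a (cw F i₁ a a ω') (dq F i₁ q ω') z) (H (slam F a ω')) := by
      unfold plb
      rw [eval_pull]
    rw [e3, e4]
    have k5 : B₁ * (1 / 2 ^ g) ≤ B₁ * (1 / 2 ^ P) :=
      mul_le_mul_of_nonneg_left (inv_mono hPg) hB₁0
    have k6 : M / 2 ^ P = B₁ * (1 / 2 ^ P) + B₁ * (1 / 2 ^ P) + B₁ * (2 * N / 2 ^ P) := by
      rw [hM]
      ring
    rw [k6]
    rw [abs_le] at k2 k3 k4 ⊢
    constructor <;> linarith [k2.1, k2.2, k3.1, k3.2, k4.1, k4.2]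
  -- the context
  have h3 := CH_chain hp0 (fun ω => Pool.OVN.hz P (plb F i₁ a a q ω (H (slam F a ω))))
    (clp F i₁ a a) W
  have h4 : CH p (ctx F i₁ a a q P H) W ≤ CH p (fun ω =>
      (Pool.OVN.hz P (plb F i₁ a a q ω (H (slam F a ω))), clp F i₁ a a ω)) W := by
    refine CH_mono_left hp0 ?_
    intro ω ω' _ _ hh
    obtain ⟨eT, eR, eD⟩ := hWT ω ω' (Prod.ext_iff.1 hh).2
    obtain ⟨-, eZ⟩ := hbc ω ω' eR
    have e1 : Pool.OVN.hz P (plb F i₁ a a q ω (H (slam F a ω))) =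
        Pool.OVN.hz P (plb F i₁ a a q ω' (H (slam F a ω'))) :=
      (Prod.ext_iff.1 (Prod.ext_iff.1 hh).1).1
    have e2 : clp F i₁ a a ω = clp F i₁ a a ω' := (Prod.ext_iff.1 (Prod.ext_iff.1 hh).1).2
    have hT1 : F.T1 a ω = F.T1 a ω' := by
      unfold Fam.T1
      rw [eT]
    exact Prod.ext (Prod.ext (Prod.ext hT1 (Prod.ext e2 eD)) e1) eZ
  linarith

end Pool.SLO
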