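import Pool.Agent.H45.KAL.MKC
import Pool.Agent.H99.FLF.NCH
import Pool.Agent.H99.FLF.NCS
import Pool.Agent.H18.PB.Skel2
import Pool.Agent.H52.K2.RG

/-!
# Multilinear Kakeya in the base of a family

The base point is the tangential position together with the time (in the slot `i₁`). If the fans
are spread, then, given any function of the exact point which is nearly a function of the line and
of the window of length `2 ^ (-a)`, the base point is full after the digit `a`.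
-/

set_option autoImplicit false

namespace Pool.SLO

open Finset Real
open Pool.Agent.H49.Ent Pool.Agent.H32.Dense Pool.STK Pool.KA Pool.KSAT Pool.K2S Pool.PB
open Pool.KS3 Pool.FLF

variable {m J : ℕ}

/-- The cell of the base point. -/
noncomputable def bc (F : Fam m J) (i₁ : Fin m) (r : ℕ) (ω : F.Ω) : Fin m → ℤ := fl r (bp F i₁ ω)

theorem bc_apply (F : Fam m J) (i₁ : Fin m) (r : ℕ) (ω : F.Ω) (i : Fin m) :
    bc F i₁ r ω i = ⌊(2 : ℝ) ^ r * bp F i₁ ω i⌋ := rfl

theorem bc_time (F : Fam m J) (i₁ : Fin m) {r : ℕ} (hr : r ≤ J) (ω : F.Ω) :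
    bc F i₁ r ω i₁ = F.T1 r ω := by
  rw [bc_apply]
  unfold bp
  rw [Function.update_self]
  have h1 := T1_real F hr ω
  rw [Int.floor_eq_iff]
  push_cast
  constructor <;> linarith [h1.1, h1.2]

theorem bc_ne (F : Fam m J) (i₁ : Fin m) (r : ℕ) (ω : F.Ω) {i : Fin m} (hi : i ≠ i₁) :
    bc F i₁ r ω i = F.X r ω i := by
  rw [bc_apply]
  unfold bp
  rw [Function.update_of_ne hi]
  rfl

/-- The cell of the base point is a function of the exact point. -/
theorem bc_det (F : Fam m J) (i₁ : Fin m) {r : ℕ} (hr : r ≤ J) {ω ω' : F.Ω}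
    (h : Fam.pt F ω = Fam.pt F ω') : bc F i₁ r ω = bc F i₁ r ω' := by
  have h1 := Prod.ext_iff.1 h
  have h2 := Prod.ext_iff.1 h1.2
  have hT : F.T ω = F.T ω' := h2.1
  funext i
  by_cases hi : i = i₁
  · subst hi
    rw [bc_time F i hr, bc_time F i hr]
    unfold Fam.T1
    rw [hT]
  · rw [bc_ne F i₁ r ω hi, bc_ne F i₁ r ω' hi]
    obtain ⟨φ, hφ⟩ := ptr_coarse F hr
    have e1 : ptr F r ω = ptr F r ω' := by
      rw [hφ ω, hφ ω']
      congr 1
    exact congrFun (Prod.ext_iff.1 e1).1 i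

/-- **Multilinear Kakeya** for the base point of a family on an event. -/
theorem mk_core (m : ℕ) : ∃ C : ℝ, 0 ≤ C ∧ ∀ (J : ℕ) (F : Fam m J) (i₁ : Fin m)
    (A : F.Ω → Prop) (κ γ : ℕ) (δ ε : ℝ) (e : (Fin m → ℤ) × (ℕ × F.ζ) → ℝ) (Γ : Type)
    (c : F.Ω → Γ), 0 < Pe F.p A → Det (Pool.Agent.H49.Ent.cond F.p A True) (Fam.pt F) c →
    0 < δ → (∀ a, 0 ≤ e a) →
    (open Classical in Ex (sp F.p A) (fun ω : {ω // A ω} => e (Fam.pt F ω.1)) ≤ ε) →
    (open Classical in NCF (sp F.p A) (fun ω : {ω // A ω} => slam F 0 ω.1)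
      (fun ω => Fam.pt F ω.1) (lB (chI i₁)) δ e) →
    (m.factorial : ℝ) ≤ δ ^ m * 2 ^ γ → 1 ≤ κ →
    m * CH (Pool.Agent.H49.Ent.cond F.p A True) F.T (fun ω => (slam F 0 ω, c ω)) ≤
      CH (Pool.Agent.H49.Ent.cond F.p A True) (bc F i₁ J) c +
        C * (J / κ + γ + κ + 1 + ε * J) := by
  classical
  obtain ⟨C, hC, h⟩ := mkc_thm m 1 le_rfl
  refine ⟨C, hC, ?_⟩
  intro J F i₁ A κ γ δ ε e Γ c hA hc hδ he hε hnc hγ hκ
  have mg : Marg (sp F.p A) (Pool.Agent.H49.Ent.cond F.p A True) (fun ω : {ω // A ω} => ω.1) :=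
    sp_marg A
  have hsp := sp_isLaw F.isLaw hA
  have hq := isLaw_cond F.isLaw hA
  -- the translation
  set M : ℕ := ∑ ω : F.Ω, ∑ i : Fin m, (bc F i₁ J ω i).natAbs with hM
  have hM0 : ∀ ω i, 0 ≤ bc F i₁ J ω i + M := by
    intro ω i
    have h1 : (bc F i₁ J ω i).natAbs ≤ M := by
      rw [hM]
      refine le_trans ?_ (Finset.single_le_sum
        (f := fun ω => ∑ i : Fin m, (bc F i₁ J ω i).natAbs) (fun _ _ => Nat.zero_le _)
        (Finset.mem_univ ω))
      exact Finset.single_le_sum (f := fun i => (bc F i₁ J ω i).natAbs)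
        (fun _ _ => Nat.zero_le _) (Finset.mem_univ i)
    omega
  have hJ : (0 : ℝ) < 2 ^ J := by positivity
  have hdet : Det (sp F.p A) (fun ω : {ω // A ω} => Fam.pt F ω.1) (fun ω => c ω.1) := by
    intro ω ω' a b hh
    exact hc _ _ (mg.pos hsp.nonneg a) (mg.pos hsp.nonneg b) hh
  have h1 := h {ω // A ω} Γ (((Fin m → ℝ) × (Fin m → ℝ)) × F.ζ × ℕ)
    ((Fin m → ℤ) × (ℕ × F.ζ)) (sp F.p A) J κ γ δ ε (fun ω => Fam.pt F ω.1) e
    (fun ω i => (bc F i₁ J ω.1 i + M).toNat) (fun ω => F.T ω.1) (fun ω => c ω.1)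
    (fun ω => slam F 0 ω.1) (fun l i => (M : ℝ) / 2 ^ J + Function.update l.1.1 i₁ 0 i)
    (fun l i => lB (chI i₁) l (some i)) hsp (fun ω => F.tim ω.1)
    (by
      intro ω ω' _ _ hh
      have e1 := bc_det F i₁ le_rfl (hh : Fam.pt F ω.1 = Fam.pt F ω'.1)
      simp only
      rw [e1])
    (by
      intro ω ω' _ _ hh
      exact (Prod.ext_iff.1 (Prod.ext_iff.1 (hh : Fam.pt F ω.1 = Fam.pt F ω'.1)).2).1)
    hdet
    (by
      intro ω _ i
      have e0 : (((bc F i₁ J ω.1 i + M).toNat : ℕ) : ℝ) = (bc F i₁ J ω.1 i : ℝ) + M := by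
        have : (((bc F i₁ J ω.1 i + M).toNat : ℕ) : ℤ) = bc F i₁ J ω.1 i + M :=
          Int.toNat_of_nonneg (hM0 _ _)
        exact_mod_cast this
      have e1 : (M : ℝ) / 2 ^ J + Function.update (slam F 0 ω.1).1.1 i₁ 0 i +
          (F.T ω.1 : ℝ) / 2 ^ J * lB (chI i₁) (slam F 0 ω.1) (some i) =
          M / 2 ^ J + bp F i₁ ω.1 i := by
        rw [lB_chI]
        unfold bp
        by_cases hi : i = i₁
        · subst hi
          rw [Function.update_self, Function.update_self, Function.update_self]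
          unfold Fam.t
          ring
        · rw [Function.update_of_ne hi, Function.update_of_ne hi, Function.update_of_ne hi]
          change (M : ℝ) / 2 ^ J + F.u ω.1 i + (F.T ω.1 : ℝ) / 2 ^ J * F.d ω.1 i = _
          unfold Fam.x Fam.t
          ring
      rw [e1, e0, bc_apply]
      have e2 := Int.floor_le ((2 : ℝ) ^ J * bp F i₁ ω.1 i)
      have e3 := Int.lt_floor_add_one ((2 : ℝ) ^ J * bp F i₁ ω.1 i)
      have e4 : ((⌊(2 : ℝ) ^ J * bp F i₁ ω.1 i⌋ : ℝ) + M) / 2 ^ J -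
          (M / 2 ^ J + bp F i₁ ω.1 i) =
          ((⌊(2 : ℝ) ^ J * bp F i₁ ω.1 i⌋ : ℝ) - 2 ^ J * bp F i₁ ω.1 i) / 2 ^ J := by
        field_simp
        ring
      rw [e4, abs_div, abs_of_pos hJ]
      refine div_le_div_of_nonneg_right ?_ hJ.le
      rw [abs_le]
      constructor <;> linarith)
    (by
      intro ω i
      rw [lB_chI]
      by_cases hi : i = i₁
      · subst hi
        rw [Function.update_self, abs_one]
      · rw [Function.update_of_ne hi]
        exact F.dir ω.1 i)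
    hδ he hε hnc (by rw [one_pow, mul_one]; exact hγ) hκ
  have e1 : CH (sp F.p A) (fun ω : {ω // A ω} => F.T ω.1)
      (fun ω => (slam F 0 ω.1, c ω.1)) =
      CH (Pool.Agent.H49.Ent.cond F.p A True) F.T (fun ω => (slam F 0 ω, c ω)) :=
    mg.CH F.T (fun ω => (slam F 0 ω, c ω))
  have e2 : CH (sp F.p A) (fun (ω : {ω // A ω}) i => (bc F i₁ J ω.1 i + M).toNat)
      (fun ω => c ω.1) =
      CH (Pool.Agent.H49.Ent.cond F.p A True) (fun ω i => (bc F i₁ J ω i + M).toNat) c :=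
    mg.CH (fun ω i => (bc F i₁ J ω i + M).toNat) c
  have e3 : CH (Pool.Agent.H49.Ent.cond F.p A True) (fun ω i => (bc F i₁ J ω i + M).toNat) c ≤
      CH (Pool.Agent.H49.Ent.cond F.p A True) (bc F i₁ J) c := by
    refine CH_mono_left hq.nonneg ?_
    intro ω ω' _ _ hh
    have h2 : bc F i₁ J ω = bc F i₁ J ω' := (Prod.ext_iff.1 hh).1
    simp only
    rw [h2]
  rw [e1, e2] at h1
  linarith

end Pool.SLO
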