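import Pool.Agent.H59.M5.CtxR
import Pool.Agent.H7.SLP.H5N

/-!
# (MK) for the static boxes

`bxs_rcd`: the static box of the own sheet at the exact time is a function of the time and of the
record of the germ, up to a bounded entropy. `mk_bxs`: the tangential digits are full given the
static box: the hypothesis (MK) of `h5_fam`.
-/

set_option autoImplicit false

namespace Pool.SLO

open Finset Real MvPolynomial
open Pool.Agent.H49.Ent Pool.Agent.H32.Dense Pool.STK Pool.KA Pool.KSAT Pool.K2S Pool.PB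
open Pool.SLP

variable {m J : ℕ}

/-- The point of the cell at the exact time. -/
noncomputable def zt (F : Fam m J) (i₁ : Fin m) (a : ℕ) (ω : F.Ω) (z : Fin m → ℝ) : Fin m → ℝ :=
  Function.update z i₁ (2 ^ a * F.t ω - F.T1 a ω)

theorem zt_mem (F : Fam m J) (i₁ : Fin m) {a : ℕ} (ha : a ≤ J) (ω : F.Ω) {z : Fin m → ℝ}
    (hz : ∀ i, 0 ≤ z i ∧ z i ≤ 1) (i : Fin m) : 0 ≤ zt F i₁ a ω z i ∧ zt F i₁ a ω z i ≤ 1 := by
  unfold zt
  by_cases hi : i = i₁
  · subst hi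
    rw [Function.update_self]
    have h := T1_real F ha ω
    exact ⟨h.1, h.2.le⟩
  · rw [Function.update_of_ne hi]
    exact hz i

/-- The sheet at the exact time in the coordinates of the cell. -/
theorem eval_cpl_pul (F : Fam m J) (i₁ : Fin m) {a : ℕ} (ha : a ≤ J)
    (G : F.Ω → MvPolynomial (Fin m) ℝ) (ω : F.Ω) (z : Fin m → ℝ) :
    eval z (cpl F i₁ a G ω) =
      eval (zt F i₁ a ω z) (Pool.OVN.pul a (bc F i₁ a ω) (G ω)) := by
  have hap : (0 : ℝ) < 2 ^ a := by positivity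
  rw [eval_cpl, eval_pul]
  unfold gfn
  congr 1
  congr 1
  funext j
  unfold zt
  by_cases hj : j = i₁
  · subst hj
    rw [Function.update_self, Function.update_self, bc_time F j ha]
    push_cast
    field_simp
    ring
  · rw [Function.update_of_ne hj, Function.update_of_ne hj, bc_ne F i₁ a ω hj]
    unfold tco tdg
    rw [if_neg hj]
    rfl

/-- **The static box is a function of the time and of the record.** -/
theorem bxs_rcd (m K : ℕ) : ∃ B : ℝ, 0 ≤ B ∧ ∀ (J : ℕ) (F : Fam m J) (i₁ : Fin m)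
    (r a e s P : ℕ) (p : F.Ω → ℝ) (G : (Fin m → ℤ) × (ℕ × F.ζ) → MvPolynomial (Fin m) ℝ),
    IsLaw p → a ≤ J → e + s ≤ P → (∀ y, (G y).totalDegree ≤ K) →
    CH p (bxs F i₁ a e K (fun ω => G (ptr F r ω)) s) (fun ω => (F.T ω, rcd F i₁ r a P G ω)) ≤
      B := by
  classical
  obtain ⟨B₂, hB₂0, hB₂⟩ := hz_ent m K
  obtain ⟨N, hN⟩ : ∃ N : ℝ, N = (mons m K).card := ⟨_, rfl⟩
  have hN0 : 0 ≤ N := by rw [hN]; exact Nat.cast_nonneg _
  have hl0 : 0 ≤ Real.log (2 * (B₂ * (2 * N) + 1) + 1) := Real.log_nonneg (by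
    have : 0 ≤ B₂ * (2 * N) := by positivity
    linarith)
  refine ⟨(mons m K).card * Real.log (2 * (B₂ * (2 * N) + 1) + 1), by positivity, ?_⟩
  intro J F i₁ r a e s P p G hp ha hP hG
  have hp0 := hp.nonneg
  have h1 := hB₂ F.Ω _ p (fun ω => (F.T ω, rcd F i₁ r a P G ω))
    (fun ω => cpl F i₁ a (fun ω => G (ptr F r ω)) ω) (e + s) (2 * N) hp (by positivity)
    (fun ω _ => (totalDegree_cpl_le F i₁ a _ ω).trans (hG _)) (by
      intro ω ω' _ _ hh z hz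
      have eT : F.T ω = F.T ω' := (Prod.ext_iff.1 hh).1
      have eR : rcd F i₁ r a P G ω = rcd F i₁ r a P G ω' := (Prod.ext_iff.1 hh).2
      have ez : zt F i₁ a ω z = zt F i₁ a ω' z := by
        unfold zt Fam.t Fam.T1
        rw [eT]
      rw [eval_cpl_pul F i₁ ha, eval_cpl_pul F i₁ ha, ← ez]
      have hzt := zt_mem F i₁ ha ω hz
      have hb1 : ∀ i, |zt F i₁ a ω z i| ≤ 1 := by
        intro i
        rw [abs_le]
        constructor <;> linarith [(hzt i).1, (hzt i).2]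
      have g1 := abs_rdp_le (P := P) ((totalDegree_pul_le a (bc F i₁ a ω)
        (G (ptr F r ω))).trans (hG _)) hb1
      have g2 := abs_rdp_le (P := P) ((totalDegree_pul_le a (bc F i₁ a ω')
        (G (ptr F r ω'))).trans (hG _)) hb1
      have g3 : rdp K P (Pool.OVN.pul a (bc F i₁ a ω) (G (ptr F r ω))) =
          rdp K P (Pool.OVN.pul a (bc F i₁ a ω') (G (ptr F r ω'))) :=
        rsh_rcd (F := F) (i₁ := i₁) (r := r) (a := a) (K := K) (P := P) (G := G) eR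
      rw [← g3] at g2
      rw [← hN] at g1 g2
      have g5 : N / 2 ^ P ≤ N / 2 ^ (e + s) :=
        div_le_div_of_nonneg_left hN0 (by positivity) (pow_le_pow_right₀ (by norm_num) hP)
      have g4 : 2 * N / 2 ^ (e + s) = N / 2 ^ (e + s) + N / 2 ^ (e + s) := by ring
      rw [g4, abs_le]
      rw [abs_le] at g1 g2
      constructor <;> linarith [g1.1, g1.2, g2.1, g2.2])
  refine le_trans (CH_mono_left hp0 ?_) h1
  intro ω ω' _ _ hh
  have e1 : Pool.OVN.hz (e + s) (cpl F i₁ a (fun ω => G (ptr F r ω)) ω) =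
      Pool.OVN.hz (e + s) (cpl F i₁ a (fun ω => G (ptr F r ω)) ω') :=
    (Prod.ext_iff.1 hh).1
  have eT : F.T ω = F.T ω' := (Prod.ext_iff.1 (Prod.ext_iff.1 hh).2).1
  have eR : rcd F i₁ r a P G ω = rcd F i₁ r a P G ω' := (Prod.ext_iff.1 (Prod.ext_iff.1 hh).2).2
  have eZ : F.Z ω = F.Z ω' := (Prod.ext_iff.1 (Prod.ext_iff.1 eR).1).1
  have eb : bc F i₁ a ω = bc F i₁ a ω' := (Prod.ext_iff.1 (Prod.ext_iff.1 eR).1).2
  refine bxs_of_hz F i₁ a e K _ s (Prod.ext eT eZ) ((bc_iff F i₁ ha ω ω').1 eb).1 ?_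
  intro al _
  exact congrFun e1 al

/-- **(MK) for the static boxes of one radius.** -/
theorem mk_bxs (m K : ℕ) : ∃ B : ℝ, 0 ≤ B ∧ ∀ (J : ℕ) (F : Fam m J) (i₁ : Fin m) (η : ℝ)
    (A : F.Ω → Prop), Mkf F i₁ η A → 0 < Pe F.p A → ∀ (r a e s g Q : ℕ)
    (G : (Fin m → ℤ) × (ℕ × F.ζ) → MvPolynomial (Fin m) ℝ)
    (H : ((Fin m → ℝ) × (Fin m → ℝ)) × F.ζ × ℕ → MvPolynomial (Fin m) ℝ), r ≤ J → a ≤ Q →
    Q ≤ J → e + s ≤ g → (∀ y, (G y).totalDegree ≤ K) → (∀ s, (H s).totalDegree ≤ K) →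
    (∀ ω, A ω → ∀ b : Fin m → ℝ, (∀ j, |b j - bp F i₁ ω j| ≤ 1 / 2 ^ a) →
      |eval b (G (ptr F r ω)) - eval b (H (slam F a ω))| ≤ 1 / 2 ^ g) →
    ((m : ℝ) - 1) * (((Q : ℝ) - a) * Real.log 2) - (B + η * J) ≤
      CH (Pool.Agent.H49.Ent.cond F.p A True) (tdg i₁ Q F.x)
        (bxs F i₁ a e K (fun ω => G (ptr F r ω)) s) := by
  obtain ⟨B₁, hB₁0, hB₁⟩ := rcd_clo m K
  obtain ⟨B₂, hB₂0, hB₂⟩ := bxs_rcd m K
  refine ⟨m * B₁ + B₂, by positivity, ?_⟩
  intro J F i₁ η A hM hA r a e s g Q G H hr haQ hQ hes hG hH hcl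
  have hq := isLaw_cond F.isLaw hA
  have hq0 := hq.nonneg
  have ha := haQ.trans hQ
  have h1 := hM.tan hA (rcd F i₁ r a g G) (s := B₁) haQ hQ
    (fun ω ω' _ _ hh => rcd_pt hr ha hh)
    (fun ω ω' _ _ hh => ((bc_iff F i₁ ha ω ω').1
      (Prod.ext_iff.1 (Prod.ext_iff.1 hh).1).2).2)
    (hB₁ J F i₁ r a g g _ G H hq ha le_rfl hG hH
      (fun ω hω b hb => hcl ω (of_cond F.isLaw.nonneg hω) b hb))
  have h2 := hB₂ J F i₁ r a e s g _ G hq ha hes hG
  have h3 := CH_le_add hq0 (tdg i₁ Q F.x) (bxs F i₁ a e K (fun ω => G (ptr F r ω)) s)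
    (fun ω => (F.T ω, rcd F i₁ r a g G ω))
  have h4 : CH (Pool.Agent.H49.Ent.cond F.p A True) (tdg i₁ Q F.x)
      (fun ω => (bxs F i₁ a e K (fun ω => G (ptr F r ω)) s ω,
        (F.T ω, rcd F i₁ r a g G ω))) ≤
      CH (Pool.Agent.H49.Ent.cond F.p A True) (tdg i₁ Q F.x)
        (bxs F i₁ a e K (fun ω => G (ptr F r ω)) s) :=
    CH_mono_cond hq0 fun ω ω' _ _ hh => (Prod.ext_iff.1 hh).1
  linarith

end Pool.SLO
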