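import Pool.Agent.H59.M5.Rec

/-!
# (H3) from (MK) and the predictability of the contexts from the static records
-/

set_option autoImplicit false

namespace Pool.SLO

open Finset Real MvPolynomial
open Pool.Agent.H49.Ent Pool.Agent.H32.Dense Pool.STK Pool.KA Pool.KSAT Pool.K2S Pool.PB
open Pool.SLP

variable {k J : ℕ}

/-- The digits of the position in the box. -/
noncomputable def ydg (F : Fam (k + 1) J) (i₁ : Fin (k + 1)) (a w X : ℕ) (ω : F.Ω) : Fin k → ℤ :=
  fun j => ⌊(2 : ℝ) ^ X * yt F i₁ a w ω j⌋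

/-- **The tangential digits at the time of the sample** are functions of the time, of the context
and of the digits of the position in the box. -/
theorem tdg_yt (F : Fam (k + 1) J) {p : F.Ω → ℝ} (hp : IsLaw p) (i₁ : Fin (k + 1))
    {a w q X : ℕ} (hw : w ≤ J) (hq : a + X ≤ q + w) {β : Type} (b : F.Ω → β)
    (hb : Det p b (fun ω => (F.T1 w ω, clp F i₁ a w ω, cld F i₁ q ω))) :
    CH p (tdg i₁ (a + X) F.x) (fun ω => (ydg F i₁ a w X ω, (F.T ω, b ω))) ≤
      (k + 1 : ℕ) * Real.log 7 := by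
  have hX : (0 : ℝ) < 2 ^ X := by positivity
  have ha : (0 : ℝ) < 2 ^ a := by positivity
  have hwp : (0 : ℝ) < 2 ^ w := by positivity
  have hqp : (0 : ℝ) < 2 ^ q := by positivity
  have h := CH_le_vec hp.nonneg hp.sum_one (tdg i₁ (a + X) F.x)
    (fun ω => (ydg F i₁ a w X ω, (F.T ω, b ω))) (fun _ => 3) (by
      intro ω ω' hω hω' hh i
      have e1 : ydg F i₁ a w X ω = ydg F i₁ a w X ω' := (Prod.ext_iff.1 hh).1
      have e2 : F.T ω = F.T ω' := (Prod.ext_iff.1 (Prod.ext_iff.1 hh).2).1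
      have e3 := hb ω ω' hω hω' (Prod.ext_iff.1 (Prod.ext_iff.1 hh).2).2
      have e4 : F.T1 w ω = F.T1 w ω' := (Prod.ext_iff.1 e3).1
      have e5 : clp F i₁ a w ω = clp F i₁ a w ω' := (Prod.ext_iff.1 (Prod.ext_iff.1 e3).2).1
      have e6 : cld F i₁ q ω = cld F i₁ q ω' := (Prod.ext_iff.1 (Prod.ext_iff.1 e3).2).2
      have et : F.tw w ω = F.tw w ω' := by
        unfold Fam.tw Fam.t
        rw [e2, e4]
      unfold tdg
      by_cases hi : i = i₁
      · rw [if_pos hi, if_pos hi, sub_self, Int.cast_zero, abs_zero]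
        norm_num
      · rw [if_neg hi, if_neg hi]
        have hfl := floor_near (x := (2 : ℝ) ^ (a + X) * F.x ω i)
          (y := 2 ^ (a + X) * F.x ω' i) (r := 2) ?_
        · norm_num at hfl ⊢
          exact hfl
        obtain ⟨j, hj⟩ := Fin.exists_succAbove_eq hi
        -- the position in the box
        have hy : |(2 : ℝ) ^ X * yb F i₁ a w ω i - 2 ^ X * yb F i₁ a w ω' i| ≤ 1 := by
          have f1 : ⌊(2 : ℝ) ^ X * yb F i₁ a w ω i⌋ = ⌊(2 : ℝ) ^ X * yb F i₁ a w ω' i⌋ := by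
            have := congrFun e1 j
            unfold ydg yt at this
            rw [hj] at this
            exact this
          have a1 := Int.floor_le ((2 : ℝ) ^ X * yb F i₁ a w ω i)
          have a2 := Int.lt_floor_add_one ((2 : ℝ) ^ X * yb F i₁ a w ω i)
          have a3 := Int.floor_le ((2 : ℝ) ^ X * yb F i₁ a w ω' i)
          have a4 := Int.lt_floor_add_one ((2 : ℝ) ^ X * yb F i₁ a w ω' i)
          rw [f1] at a1 a2
          rw [abs_le]
          constructor <;> linarith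
        -- the velocity
        have hd : |F.d ω i - F.d ω' i| ≤ 1 / 2 ^ q := by
          have f1 : ⌊(2 : ℝ) ^ q * F.d ω i⌋ = ⌊(2 : ℝ) ^ q * F.d ω' i⌋ := by
            have := congrFun e6 i
            unfold cld at this
            rw [if_neg hi, if_neg hi] at this
            exact this
          have a1 := Int.floor_le ((2 : ℝ) ^ q * F.d ω i)
          have a2 := Int.lt_floor_add_one ((2 : ℝ) ^ q * F.d ω i)
          have a3 := Int.floor_le ((2 : ℝ) ^ q * F.d ω' i)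
          have a4 := Int.lt_floor_add_one ((2 : ℝ) ^ q * F.d ω' i)
          rw [f1] at a1 a2
          have f2 : |(2 : ℝ) ^ q * (F.d ω i - F.d ω' i)| ≤ 1 := by
            rw [mul_sub, abs_le]
            constructor <;> linarith
          rw [abs_mul, abs_of_pos hqp] at f2
          rw [le_div_iff₀ hqp, mul_comm]
          exact f2
        have hx : ∀ ω₀ : F.Ω, F.x ω₀ i = cw F i₁ a w ω₀ i + yb F i₁ a w ω₀ i / 2 ^ a +
            F.tw w ω₀ / 2 ^ w * F.d ω₀ i := by
          intro ω₀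
          have ht : (F.T1 w ω₀ : ℝ) / 2 ^ w + F.tw w ω₀ / 2 ^ w = F.t ω₀ := by
            unfold Fam.tw
            field_simp
            ring
          unfold yb
          rw [if_neg hi]
          unfold Fam.x Fam.x1
          rw [← ht]
          field_simp
          ring
        have hc : cw F i₁ a w ω i = cw F i₁ a w ω' i := by
          rw [cw_eq, cw_eq]
          simp only
          rw [if_neg hi, if_neg hi, e5]
        have htw := T1_real F hw ω
        have ht0 : 0 ≤ F.tw w ω := by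
          unfold Fam.tw
          exact htw.1
        have ht1 : F.tw w ω ≤ 1 := by
          unfold Fam.tw
          exact htw.2.le
        have e7 : (2 : ℝ) ^ (a + X) * F.x ω i - 2 ^ (a + X) * F.x ω' i =
            (2 ^ X * yb F i₁ a w ω i - 2 ^ X * yb F i₁ a w ω' i) +
              2 ^ (a + X) / 2 ^ w * F.tw w ω * (F.d ω i - F.d ω' i) := by
          rw [hx ω, hx ω', hc, ← et, pow_add]
          field_simp
          ring
        rw [e7]
        have h8 : |(2 : ℝ) ^ (a + X) / 2 ^ w * F.tw w ω * (F.d ω i - F.d ω' i)| ≤ 1 := by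
          rw [abs_mul, abs_of_nonneg (by positivity)]
          have h9 : (2 : ℝ) ^ (a + X) / 2 ^ w * F.tw w ω ≤ 2 ^ q := by
            have h10 : (2 : ℝ) ^ (a + X) ≤ 2 ^ q * 2 ^ w := by
              rw [← pow_add]
              exact pow_le_pow_right₀ (by norm_num) hq
            calc (2 : ℝ) ^ (a + X) / 2 ^ w * F.tw w ω ≤ 2 ^ (a + X) / 2 ^ w * 1 :=
                  mul_le_mul_of_nonneg_left ht1 (by positivity)
              _ = 2 ^ (a + X) / 2 ^ w := mul_one _
              _ ≤ 2 ^ q := by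
                  rw [div_le_iff₀ hwp]
                  exact h10
          calc _ ≤ (2 : ℝ) ^ q * (1 / 2 ^ q) := mul_le_mul h9 hd (abs_nonneg _) hqp.le
            _ = 1 := by field_simp
        refine (abs_add_le _ _).trans ?_
        linarith)
  rw [Ex_const hp.sum_one] at h
  norm_num at h ⊢
  exact h

/-- One block: the position in the box against the tangential digits, given the static record. -/
theorem h3_one (F : Fam (k + 1) J) {p : F.Ω → ℝ} (hp : IsLaw p) (i₁ : Fin (k + 1))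
    {a w q X : ℕ} (hw : w ≤ J) (hq : a + X ≤ q + w) {β ρ : Type} (b : F.Ω → β) (R : F.Ω → ρ)
    (hb : Det p b (fun ω => (F.T1 w ω, clp F i₁ a w ω, cld F i₁ q ω))) :
    CH p (tdg i₁ (a + X) F.x) (fun ω => ((F.T ω, R ω), cld F i₁ q ω)) ≤
      CH p (ydg F i₁ a w X) b + CH p b (fun ω => ((F.T ω, R ω), cld F i₁ q ω)) +
        (k + 1 : ℕ) * Real.log 7 := by
  have hp0 := hp.nonneg
  have h1 := CH_le_add hp0 (tdg i₁ (a + X) F.x) b (fun ω => ((F.T ω, R ω), cld F i₁ q ω))
  have h2 := CH_le_add hp0 (tdg i₁ (a + X) F.x) (ydg F i₁ a w X)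
    (fun ω => (b ω, ((F.T ω, R ω), cld F i₁ q ω)))
  have h3 : CH p (ydg F i₁ a w X) (fun ω => (b ω, ((F.T ω, R ω), cld F i₁ q ω))) ≤
      CH p (ydg F i₁ a w X) b := CH_mono_cond hp0 fun ω ω' _ _ hh => (Prod.ext_iff.1 hh).1
  have h4 : CH p (tdg i₁ (a + X) F.x)
      (fun ω => (ydg F i₁ a w X ω, (b ω, ((F.T ω, R ω), cld F i₁ q ω)))) ≤
      CH p (tdg i₁ (a + X) F.x) (fun ω => (ydg F i₁ a w X ω, (F.T ω, b ω))) := by
    refine CH_mono_cond hp0 fun ω ω' _ _ hh => ?_
    have e1 := Prod.ext_iff.1 hh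
    have e2 := Prod.ext_iff.1 e1.2
    have e3 := Prod.ext_iff.1 (Prod.ext_iff.1 e2.2).1
    exact Prod.ext e1.1 (Prod.ext e3.1 e2.1)
  have h5 := tdg_yt F hp i₁ hw hq b hb
  linarith

/-- **(H3), summed over the radii of a list**, at a fixed window. -/
theorem h3_sum (k K : ℕ) : ∃ B : ℝ, 0 ≤ B ∧ ∀ (J : ℕ) (F : Fam (k + 1) J) (i₁ : Fin (k + 1))
    (η : ℝ) (A : F.Ω → Prop), Mkf F i₁ η A → 0 < Pe F.p A → ∀ (n r w q X : ℕ) (a P g : ℕ → ℕ)
    (G : ℕ → (Fin (k + 1) → ℤ) × (ℕ × F.ζ) → MvPolynomial (Fin (k + 1)) ℝ)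
    (H : ℕ → ((Fin (k + 1) → ℝ) × (Fin (k + 1) → ℝ)) × F.ζ × ℕ → MvPolynomial (Fin (k + 1)) ℝ)
    (β : ℕ → Type) (b : ∀ i, F.Ω → β i), r ≤ J → w ≤ J →
    (∀ i < n, a i + X ≤ a (i + 1)) → (∀ i < n, a i + X ≤ q + w) → (∀ i ≤ n, a i ≤ J) →
    (∀ i < n, P i ≤ g i) → (∀ i < n, ∀ y, (G i y).totalDegree ≤ K) →
    (∀ i < n, ∀ s, (H i s).totalDegree ≤ K) →
    (∀ i < n, ∀ ω, A ω → ∀ b : Fin (k + 1) → ℝ, (∀ j, |b j - bp F i₁ ω j| ≤ 1 / 2 ^ (a i)) →
      |eval b (G i (ptr F r ω)) - eval b (H i (slam F (a i) ω))| ≤ 1 / 2 ^ (g i)) →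
    (∀ i < n, Det (Pool.Agent.H49.Ent.cond F.p A True) (b i)
      (fun ω => (F.T1 w ω, clp F i₁ (a i) w ω, cld F i₁ q ω))) →
    ∑ i ∈ range n, (k * (X * Real.log 2) -
      CH (Pool.Agent.H49.Ent.cond F.p A True) (ydg F i₁ (a i) w X) (b i)) ≤
      n * (B * n + η * J + B) + (k + 1 : ℕ) * (q * Real.log 2 + Real.log 7) +
      ∑ i ∈ range n, CH (Pool.Agent.H49.Ent.cond F.p A True) (b i)
        (fun ω => ((F.T ω, jn (fun k => rcd F i₁ r (a k) (P k) (G k)) i ω), cld F i₁ q ω)) := by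
  obtain ⟨B, hB0, hB⟩ := mkf_rec (k + 1) K
  have h7 : 0 ≤ Real.log 7 := Real.log_nonneg (by norm_num)
  refine ⟨B + (k + 1 : ℕ) * Real.log 7, by positivity, ?_⟩
  intro J F i₁ η A hM hA n r w q X a P g G H β b hr hw haX hq haJ hP hG hH hcl hb
  have hp := isLaw_cond F.isLaw hA
  have hp0 := hp.nonneg
  have h1 := hB J F i₁ η A hM hA n r a P g G H (Fin (k + 1) → ℤ) (cld F i₁ q) hr
    (fun i hi => by have := haX i hi; omega) haJ hP hG hH hcl
  have h2 := cld_ent F hp i₁ q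
    (fun ω => (F.T ω, jn (fun k => rcd F i₁ r (a k) (P k) (G k)) 0 ω))
  have key : ∀ i ∈ range n, (k * (X * Real.log 2) -
      CH (Pool.Agent.H49.Ent.cond F.p A True) (ydg F i₁ (a i) w X) (b i)) ≤
      ((((k + 1 : ℕ) : ℝ) - 1) * (((a (i + 1) : ℝ) - a i) * Real.log 2) -
        CH (Pool.Agent.H49.Ent.cond F.p A True) (tdg i₁ (a (i + 1)) F.x)
          (fun ω => ((F.T ω, jn (fun k => rcd F i₁ r (a k) (P k) (G k)) i ω), cld F i₁ q ω))) +
      ((k + 1 : ℕ) * Real.log 7 + CH (Pool.Agent.H49.Ent.cond F.p A True) (b i)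
        (fun ω => ((F.T ω, jn (fun k => rcd F i₁ r (a k) (P k) (G k)) i ω),
          cld F i₁ q ω))) := by
    intro i hi
    have hi' := Finset.mem_range.1 hi
    have h3 := h3_one F hp i₁ hw (hq i hi') (b i)
      (jn (fun k => rcd F i₁ r (a k) (P k) (G k)) i) (hb i hi')
    have h4 := CH_le_add hp0 (tdg i₁ (a (i + 1)) F.x) (tdg i₁ (a i + X) F.x)
      (fun ω => ((F.T ω, jn (fun k => rcd F i₁ r (a k) (P k) (G k)) i ω), cld F i₁ q ω))
    have h5 := tdg_ch hp i₁ F.x (haX i hi') (fun ω => (tdg i₁ (a i + X) F.x ω,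
      ((F.T ω, jn (fun k => rcd F i₁ r (a k) (P k) (G k)) i ω), cld F i₁ q ω)))
      (fun ω ω' _ _ hh => (Prod.ext_iff.1 hh).1)
    push_cast at h3 h5 ⊢
    have h6 : ((k : ℝ) + 1 - 1) * (((a (i + 1) : ℝ) - (a i + X)) * Real.log 2) =
        ((k : ℝ) + 1 - 1) * (((a (i + 1) : ℝ) - a i) * Real.log 2) - k * (X * Real.log 2) := by
      ring
    linarith
  refine (Finset.sum_le_sum key).trans ?_
  rw [Finset.sum_add_distrib, Finset.sum_add_distrib, Finset.sum_const, Finset.card_range,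
    nsmul_eq_mul]
  have hn0 : (0 : ℝ) ≤ n := Nat.cast_nonneg n
  have hn1 : 0 ≤ (n : ℝ) * (((k + 1 : ℕ) * Real.log 7) * n) := by positivity
  have hn2 : 0 ≤ (n : ℝ) * B := by positivity
  have e : (n : ℝ) * ((B + (k + 1 : ℕ) * Real.log 7) * n + η * J +
      (B + (k + 1 : ℕ) * Real.log 7)) = n * (B * n + η * J) +
      n * (((k + 1 : ℕ) * Real.log 7) * n) + n * B + n * ((k + 1 : ℕ) * Real.log 7) := by ring
  rw [e]
  linarith

end Pool.SLO
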