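import Pool.Agent.H59.M5.Mkg
import Pool.Agent.H81.SLP.Ctx3
import Pool.Agent.H65.OVN.Defs

/-!
# Closed records of the ball germs

A germ is a function of the exact point, a polynomial of degree at most `K`, which agrees on the
ball of radius `2 ^ (-a)` with a function of the line and of the window of length `2 ^ (-a)`, up to
`2 ^ (-g)`. Its record: the side information, the cell of the base point, the coefficients in the
coordinates of the cell rounded to `P ≤ g` digits. The record is closed up to a bounded entropy.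
-/

set_option autoImplicit false

namespace Pool.SLO

open Finset Real MvPolynomial
open Pool.Agent.H49.Ent Pool.Agent.H32.Dense Pool.STK Pool.KA Pool.KSAT Pool.K2S Pool.PB
open Pool.SLP

variable {m J : ℕ}

theorem eval_pul {n : ℕ} (a : ℕ) (c : Fin n → ℤ) (G : MvPolynomial (Fin n) ℝ) (z : Fin n → ℝ) :
    eval z (Pool.OVN.pul a c G) = eval (fun j => (c j : ℝ) / 2 ^ a + 1 / 2 ^ a * z j) G := by
  unfold Pool.OVN.pul
  rw [eval, eval₂Hom_bind₁]
  congr 1
  congr 1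
  funext j
  simp only [coe_eval₂Hom, eval₂_add, eval₂_mul, eval₂_C, eval₂_X, RingHom.id_apply]

theorem totalDegree_pul_le {n : ℕ} (a : ℕ) (c : Fin n → ℤ) (G : MvPolynomial (Fin n) ℝ) :
    (Pool.OVN.pul a c G).totalDegree ≤ G.totalDegree := by
  refine totalDegree_bind₁_le _ (fun j => ?_) G
  refine (totalDegree_add _ _).trans (max_le ?_ ((totalDegree_mul _ _).trans ?_))
  · rw [totalDegree_C]
    exact Nat.zero_le _
  · rw [totalDegree_C, totalDegree_X]

/-- **Entropy of rounded coefficients** of polynomials which agree on the unit cube. -/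
theorem hz_ent (m K : ℕ) : ∃ B : ℝ, 0 ≤ B ∧ ∀ (Ω T : Type) [Fintype Ω] (p : Ω → ℝ) (W : Ω → T)
    (G : Ω → MvPolynomial (Fin m) ℝ) (P : ℕ) (M : ℝ), IsLaw p → 0 ≤ M →
    (∀ ω, 0 < p ω → (G ω).totalDegree ≤ K) →
    (∀ ω ω', 0 < p ω → 0 < p ω' → W ω = W ω' → ∀ z : Fin m → ℝ, (∀ i, 0 ≤ z i ∧ z i ≤ 1) →
      |eval z (G ω) - eval z (G ω')| ≤ M / 2 ^ P) →
    CH p (fun ω => Pool.OVN.hz P (G ω)) W ≤ (mons m K).card * Real.log (2 * (B * M + 1) + 1) := by
  classical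
  obtain ⟨B, hB0, hB⟩ := coef_cube m K
  refine ⟨B, hB0, ?_⟩
  intro Ω T _ p W G P M hp hM hdeg hcl
  have hP : (0 : ℝ) < 2 ^ P := by positivity
  set e := (mons m K).equivFin with he
  have h1 : CH p (fun ω => Pool.OVN.hz P (G ω)) W ≤
      CH p (fun ω => fun k : Fin (mons m K).card => Pool.OVN.hz P (G ω) (e.symm k).1) W := by
    refine CH_mono_left hp.nonneg ?_
    intro ω ω' hω hω' hh
    have h2 := (Prod.ext_iff.1 hh).1
    funext s
    by_cases hs : s ∈ mons m K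
    · have h3 := congrFun h2 (e ⟨s, hs⟩)
      simp only [Equiv.symm_apply_apply] at h3
      exact h3
    · have h3 : ∀ ω₀, 0 < p ω₀ → coeff s (G ω₀) = 0 := by
        intro ω₀ h0
        by_contra hne
        exact hs (mem_mons.2 ((le_totalDegree (mem_support_iff.2 hne)).trans (hdeg ω₀ h0)))
      change ⌊(2 : ℝ) ^ P * coeff s (G ω)⌋ = ⌊(2 : ℝ) ^ P * coeff s (G ω')⌋
      rw [h3 ω hω, h3 ω' hω']
  refine h1.trans ?_
  have h2 := CH_le_vec hp.nonneg hp.sum_one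
    (fun ω => fun k : Fin (mons m K).card => Pool.OVN.hz P (G ω) (e.symm k).1) W
    (fun _ => B * M + 1) (by
      intro ω ω' hω hω' hW k
      unfold Pool.OVN.hz
      refine floor_near ?_
      have h3 := hB (G ω - G ω') (M / 2 ^ P)
        ((totalDegree_sub _ _).trans (max_le (hdeg ω hω) (hdeg ω' hω'))) (by
          intro b hb
          rw [map_sub]
          exact hcl ω ω' hω hω' hW b hb) (e.symm k).1
      rw [coeff_sub] at h3
      rw [← mul_sub, abs_mul, abs_of_pos hP]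
      calc _ ≤ (2 : ℝ) ^ P * (B * (M / 2 ^ P)) := mul_le_mul_of_nonneg_left h3 hP.le
        _ = B * M := by field_simp)
  rw [Ex_const hp.sum_one] at h2
  exact h2

/-- The cell of the base point given the line and the window. -/
theorem bc_slam (F : Fam m J) {p : F.Ω → ℝ} (hp : IsLaw p) (i₁ : Fin m) {a : ℕ} (ha : a ≤ J) :
    CH p (bc F i₁ a) (slam F a) ≤ m * Real.log 5 := by
  have h := CH_le_vec hp.nonneg hp.sum_one (bc F i₁ a) (slam F a) (fun _ => 2) (by
    intro ω ω' _ _ hh i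
    have e1 := Prod.ext_iff.1 hh
    have e2 := Prod.ext_iff.1 e1.1
    have e3 := Prod.ext_iff.1 e1.2
    have eT : F.T1 a ω = F.T1 a ω' := e3.2
    have eu : F.u ω = F.u ω' := e2.1
    have ed : F.d ω = F.d ω' := e2.2
    rw [bc_apply, bc_apply]
    have h2 := T1_real F ha ω
    have h3 := T1_real F ha ω'
    rw [← eT] at h3
    have h4 : |(2 : ℝ) ^ a * F.t ω - 2 ^ a * F.t ω'| ≤ 1 := by
      rw [abs_le]
      constructor <;> linarith [h2.1, h2.2, h3.1, h3.2]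
    have h5 : |(2 : ℝ) ^ a * bp F i₁ ω i - 2 ^ a * bp F i₁ ω' i| ≤ 1 := by
      unfold bp
      by_cases hi : i = i₁
      · subst hi
        rw [Function.update_self, Function.update_self]
        exact h4
      · rw [Function.update_of_ne hi, Function.update_of_ne hi]
        unfold Fam.x
        rw [← eu, ← ed]
        have e5 : (2 : ℝ) ^ a * (F.u ω i + F.t ω * F.d ω i) -
            2 ^ a * (F.u ω i + F.t ω' * F.d ω i) =
            (2 ^ a * F.t ω - 2 ^ a * F.t ω') * F.d ω i := by ring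
        rw [e5, abs_mul]
        calc _ ≤ 1 * 1 := mul_le_mul h4 (F.dir ω i) (abs_nonneg _) (by norm_num)
          _ = 1 := one_mul 1
    have h6 := floor_near h5
    norm_num at h6 ⊢
    exact h6)
  rw [Ex_const hp.sum_one] at h
  norm_num at h
  exact h

/-- The point of the cell lies in the ball around the base point. -/
theorem cell_near {F : Fam m J} {i₁ : Fin m} {a : ℕ} {ω : F.Ω} {z : Fin m → ℝ}
    (hz : ∀ i, 0 ≤ z i ∧ z i ≤ 1) (j : Fin m) :
    |((bc F i₁ a ω j : ℝ) / 2 ^ a + 1 / 2 ^ a * z j) - bp F i₁ ω j| ≤ 1 / 2 ^ a := by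
  have ha : (0 : ℝ) < 2 ^ a := by positivity
  rw [bc_apply]
  have h1 := Int.floor_le ((2 : ℝ) ^ a * bp F i₁ ω j)
  have h2 := Int.lt_floor_add_one ((2 : ℝ) ^ a * bp F i₁ ω j)
  have e : ((⌊(2 : ℝ) ^ a * bp F i₁ ω j⌋ : ℝ) / 2 ^ a + 1 / 2 ^ a * z j) - bp F i₁ ω j =
      ((⌊(2 : ℝ) ^ a * bp F i₁ ω j⌋ : ℝ) + z j - 2 ^ a * bp F i₁ ω j) / 2 ^ a := by
    field_simp
  rw [e, abs_div, abs_of_pos ha]
  refine div_le_div_of_nonneg_right ?_ ha.le
  rw [abs_le]
  constructor <;> linarith [(hz j).1, (hz j).2]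

/-- **The record of a germ.** -/
noncomputable def rcd (F : Fam m J) (i₁ : Fin m) (r a P : ℕ)
    (G : (Fin m → ℤ) × (ℕ × F.ζ) → MvPolynomial (Fin m) ℝ) (ω : F.Ω) :
    (F.ζ × (Fin m → ℤ)) × ((Fin m →₀ ℕ) → ℤ) :=
  ((F.Z ω, bc F i₁ a ω), Pool.OVN.hz P (Pool.OVN.pul a (bc F i₁ a ω) (G (ptr F r ω))))

/-- The record is a function of the exact point. -/
theorem rcd_pt {F : Fam m J} {i₁ : Fin m} {r a P : ℕ}
    {G : (Fin m → ℤ) × (ℕ × F.ζ) → MvPolynomial (Fin m) ℝ} (hr : r ≤ J) (ha : a ≤ J) {ω ω' : F.Ω}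
    (h : Fam.pt F ω = Fam.pt F ω') : rcd F i₁ r a P G ω = rcd F i₁ r a P G ω' := by
  obtain ⟨φ, hφ⟩ := ptr_coarse F hr
  have e1 : ptr F r ω = ptr F r ω' := by
    rw [hφ ω, hφ ω']
    congr 1
  have e2 := bc_det F i₁ ha h
  have e3 : F.Z ω = F.Z ω' := (Prod.ext_iff.1 (Prod.ext_iff.1 h).2).2
  unfold rcd
  rw [e1, e2, e3]

/-- **The record of a germ is closed** up to a bounded entropy. -/
theorem rcd_clo (m K : ℕ) : ∃ B : ℝ, 0 ≤ B ∧ ∀ (J : ℕ) (F : Fam m J) (i₁ : Fin m)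
    (r a P g : ℕ) (p : F.Ω → ℝ) (G : (Fin m → ℤ) × (ℕ × F.ζ) → MvPolynomial (Fin m) ℝ)
    (H : ((Fin m → ℝ) × (Fin m → ℝ)) × F.ζ × ℕ → MvPolynomial (Fin m) ℝ), IsLaw p → a ≤ J →
    P ≤ g → (∀ y, (G y).totalDegree ≤ K) → (∀ s, (H s).totalDegree ≤ K) →
    (∀ ω, 0 < p ω → ∀ b : Fin m → ℝ, (∀ j, |b j - bp F i₁ ω j| ≤ 1 / 2 ^ a) →
      |eval b (G (ptr F r ω)) - eval b (H (slam F a ω))| ≤ 1 / 2 ^ g) →
    CH p (rcd F i₁ r a P G) (slam F a) ≤ B := by
  obtain ⟨B, hB0, hB⟩ := hz_ent m K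
  refine ⟨m * Real.log 5 + (mons m K).card * Real.log (2 * (B * 2 + 1) + 1), ?_, ?_⟩
  · have h1 : 0 ≤ Real.log 5 := Real.log_nonneg (by norm_num)
    have h2 : 0 ≤ Real.log (2 * (B * 2 + 1) + 1) := Real.log_nonneg (by linarith)
    positivity
  intro J F i₁ r a P g p G H hp ha hPg hG hH hcl
  have hp0 := hp.nonneg
  have h1 := CH_chain hp0 (fun ω => Pool.OVN.hz P (Pool.OVN.pul a (bc F i₁ a ω)
    (G (ptr F r ω)))) (bc F i₁ a) (slam F a)
  have h2 := bc_slam F hp i₁ ha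
  have h3 := hB F.Ω ((Fin m → ℤ) × (((Fin m → ℝ) × (Fin m → ℝ)) × F.ζ × ℕ)) p
    (fun ω => (bc F i₁ a ω, slam F a ω))
    (fun ω => Pool.OVN.pul a (bc F i₁ a ω) (G (ptr F r ω))) P 2 hp (by norm_num)
    (fun ω _ => (totalDegree_pul_le _ _ _).trans (hG _)) (by
      intro ω ω' hω hω' hh z hz
      have e1 : bc F i₁ a ω = bc F i₁ a ω' := (Prod.ext_iff.1 hh).1
      have e2 : slam F a ω = slam F a ω' := (Prod.ext_iff.1 hh).2
      have k1 := hcl ω hω _ (cell_near (F := F) (i₁ := i₁) (a := a) (ω := ω) hz)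
      have k2 := hcl ω' hω' _ (cell_near (F := F) (i₁ := i₁) (a := a) (ω := ω') hz)
      rw [eval_pul, eval_pul]
      rw [← e1, ← e2] at k2
      rw [← e1]
      have k3 := inv_mono hPg
      have k4 : (2 : ℝ) / 2 ^ P = 1 / 2 ^ P + 1 / 2 ^ P := by ring
      rw [k4, abs_le]
      rw [abs_le] at k1 k2
      constructor <;> linarith [k1.1, k1.2, k2.1, k2.2])
  have h4 : CH p (rcd F i₁ r a P G) (slam F a) ≤ CH p (fun ω =>
      (Pool.OVN.hz P (Pool.OVN.pul a (bc F i₁ a ω) (G (ptr F r ω))), bc F i₁ a ω))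
      (slam F a) := by
    refine CH_mono_left hp0 ?_
    intro ω ω' _ _ hh
    have e1 := Prod.ext_iff.1 (Prod.ext_iff.1 hh).1
    have e2 := Prod.ext_iff.1 (Prod.ext_iff.1 (Prod.ext_iff.1 hh).2).2
    exact Prod.ext (Prod.ext e2.1 e1.2) e1.1
  linarith

/-! ### Joins -/

/-- The join of the first records. -/
def jn {Ω Γ : Type} (c : ℕ → Ω → Γ) (i : ℕ) (ω : Ω) : ℕ → Γ := fun k => c (min k i) ω

theorem jn_eq {Ω Γ : Type} {c : ℕ → Ω → Γ} {i : ℕ} {ω ω' : Ω} :
    jn c i ω = jn c i ω' ↔ ∀ k ≤ i, c k ω = c k ω' := by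
  constructor
  · intro h k hk
    have h1 := congrFun h k
    unfold jn at h1
    rwa [Nat.min_eq_left hk] at h1
  · intro h
    funext k
    exact h _ (Nat.min_le_right _ _)

theorem jn_ent {Ω Γ U : Type} [Fintype Ω] {p : Ω → ℝ} (hp : ∀ ω, 0 ≤ p ω) (c : ℕ → Ω → Γ)
    (W : Ω → U) (i : ℕ) : CH p (jn c i) W ≤ ∑ k ∈ range (i + 1), CH p (c k) W := by
  induction i with
  | zero =>
    rw [zero_add, Finset.sum_range_one]
    refine CH_mono_left hp ?_
    intro ω ω' _ _ hh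
    rw [jn_eq]
    intro k hk
    have : k = 0 := by omega
    rw [this]
    exact (Prod.ext_iff.1 hh).1
  | succ i ih =>
    rw [Finset.sum_range_succ]
    have h1 : CH p (jn c (i + 1)) W ≤ CH p (fun ω => (c (i + 1) ω, jn c i ω)) W := by
      refine CH_mono_left hp ?_
      intro ω ω' _ _ hh
      have e1 := Prod.ext_iff.1 (Prod.ext_iff.1 hh).1
      rw [jn_eq]
      intro k hk
      rcases Nat.lt_or_ge k (i + 1) with h | h
      · exact jn_eq.1 e1.2 k (by omega)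
      · have : k = i + 1 := by omega
        rw [this]
        exact e1.1
    have h2 := CH_chain hp (c (i + 1)) (jn c i) W
    have h3 : CH p (c (i + 1)) (fun ω => (jn c i ω, W ω)) ≤ CH p (c (i + 1)) W :=
      CH_mono_cond hp fun ω ω' _ _ hh => (Prod.ext_iff.1 hh).2
    linarith

end Pool.SLO
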