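import Pool.Agent.H59.M5.Mk

/-!
# (MK) on families: the base point is full given a closed function of the exact point
-/

set_option autoImplicit false

namespace Pool.SLO

open Finset Real
open Pool.Agent.H49.Ent Pool.Agent.H32.Dense Pool.STK Pool.KA Pool.KSAT Pool.K2S Pool.PB
open Pool.KS3 Pool.FLF

variable {m J : ℕ}

/-- **(MK)** Let `c` be a function of the exact point which is a function of the line and of the
window of length `2 ^ (-a)`, up to the entropy `s`. Then the base point is full given `c`, after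
the digit `a`, up to `m s + η J`. -/
def Mkf (F : Fam m J) (i₁ : Fin m) (η : ℝ) (A : F.Ω → Prop) : Prop :=
  ∀ (Γ : Type) (c : F.Ω → Γ) (a : ℕ) (s : ℝ), a ≤ J →
    Det (Pool.Agent.H49.Ent.cond F.p A True) (Fam.pt F) c →
    CH (Pool.Agent.H49.Ent.cond F.p A True) c (slam F a) ≤ s →
    m * (((J : ℝ) - a) * Real.log 2 - s) - η * J ≤
      CH (Pool.Agent.H49.Ent.cond F.p A True) (bc F i₁ J) c

/-- The window given the line. -/
theorem slam_ent (F : Fam m J) {p : F.Ω → ℝ} (hp : IsLaw p) {a : ℕ} (ha : a ≤ J) :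
    CH p (slam F a) (slam F 0) ≤ a * Real.log 2 := by
  classical
  have h1 := CH_le_card hp.nonneg hp.sum_one (slam F a) (slam F 0)
    (fun l => (Finset.range (2 ^ a)).image fun k => (l.1, l.2.1, k)) (by
      intro ω _
      rw [Finset.mem_image]
      refine ⟨F.T1 a ω, ?_, rfl⟩
      rw [Finset.mem_range]
      unfold Fam.T1
      rw [Nat.div_lt_iff_lt_mul (by positivity), ← pow_add]
      have := F.tim ω
      have e : a + (J - a) = J := by omega
      rwa [e])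
  refine h1.trans ?_
  have e1 : Ex p (fun _ : F.Ω => (a : ℝ) * Real.log 2) = a * Real.log 2 := Ex_const hp.sum_one _
  rw [← e1]
  refine Ex_mono hp.nonneg fun ω _ => ?_
  have h2 : (((Finset.range (2 ^ a)).image fun k : ℕ =>
      ((slam F 0 ω).1, (slam F 0 ω).2.1, k)).card : ℝ) = 2 ^ a := by
    rw [Finset.card_image_of_injective, Finset.card_range]
    · push_cast
      rfl
    · intro k k' h
      exact (Prod.ext_iff.1 (Prod.ext_iff.1 h).2).2
  rw [h2, Real.log_pow]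

/-- The time given the line and a closed function. -/
theorem time_ent (F : Fam m J) {p : F.Ω → ℝ} (hp : IsLaw p) {a : ℕ} (ha : a ≤ J) {Γ : Type}
    (c : F.Ω → Γ) {s e : ℝ} (hT : J * Real.log 2 - e ≤ CH p F.T (slam F 0))
    (hc : CH p c (slam F a) ≤ s) :
    ((J : ℝ) - a) * Real.log 2 - s - e ≤ CH p F.T (fun ω => (slam F 0 ω, c ω)) := by
  have hp0 := hp.nonneg
  have h1 := CH_le_add hp0 F.T c (slam F 0)
  have h2 := CH_le_add hp0 c (slam F a) (slam F 0)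
  have h3 : CH p c (fun ω => (slam F a ω, slam F 0 ω)) ≤ CH p c (slam F a) :=
    CH_mono_cond hp0 fun ω ω' _ _ h => (Prod.ext_iff.1 h).1
  have h4 := slam_ent F hp ha
  have h5 : CH p F.T (fun ω => (c ω, slam F 0 ω)) ≤ CH p F.T (fun ω => (slam F 0 ω, c ω)) := by
    refine CH_mono_cond hp0 fun ω ω' _ _ h => ?_
    have := Prod.ext_iff.1 h
    exact Prod.ext this.2 this.1
  linarith

/-- The times of the restriction to an event. -/
theorem time_st {S : FCl m} {τ : ℝ} (hτ : 0 ≤ τ) {F : Fam m J} {A : F.Ω → Prop}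
    (h : S.St τ F A) : 0 < Pe F.p A ∧ J * Real.log 2 - 6 * τ * J ≤
      CH (Pool.Agent.H49.Ent.cond F.p A True) F.T (slam F 0) := by
  have hJ : (0 : ℝ) ≤ J := Nat.cast_nonneg J
  have hpos : 0 < Pe F.p A := lt_of_lt_of_le (Real.exp_pos _) h.2
  refine ⟨hpos, ?_⟩
  obtain ⟨hl, -, -, h3, -⟩ := res_thm m J F 1 (τ * J) (τ * J) (τ * J) zero_le_one (by positivity)
    (by positivity) (S.tr h.1) (S.rb h.1) (S.tm h.1) A h.2
  unfold Fam.Tm at h3
  have h4 : CH (Pool.Agent.H49.Ent.cond F.p A True) F.T (fun ω => (F.l ω, F.Z ω)) ≤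
      CH (Pool.Agent.H49.Ent.cond F.p A True) F.T (slam F 0) := by
    refine CH_mono_cond hl.nonneg fun ω ω' _ _ hh => ?_
    have e := Prod.ext_iff.1 hh
    have e0 : ∀ ω, F.T1 0 ω = 0 := by
      intro ω
      unfold Fam.T1
      rw [Nat.sub_zero]
      exact Nat.div_eq_of_lt (F.tim ω)
    refine Prod.ext e.1 (Prod.ext e.2 ?_)
    change F.T1 0 ω = F.T1 0 ω'
    rw [e0, e0]
  have h5 : (F.res A True hl).T = F.T := rfl
  have h6 : J * Real.log 2 - (τ * J + 4 * (τ * J) + τ * J) ≤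
      CH (Pool.Agent.H49.Ent.cond F.p A True) F.T (fun ω => (F.l ω, F.Z ω)) := h3
  linarith

/-- **(MK) holds in classes with spread fans.** -/
theorem mkf_clg {S : FCl m} (hs : SPS S (m - 2)) {h₁ η : ℝ} (hh : 0 < h₁) (hη : 0 < η) :
    Clg S (fun J F A => ∀ i₁ : Fin m, Ch F i₁ ⌊h₁ * J⌋₊ A → Mkf F i₁ η A) := by
  classical
  rcases Nat.eq_zero_or_pos m with hm | hm
  · subst hm
    exact Clg.of one_pos 0 fun _ _ _ _ _ i₁ => i₁.elim0
  have hmr : (1 : ℝ) ≤ m := by exact_mod_cast hm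
  obtain ⟨C, hC, hcore⟩ := mk_core m
  obtain ⟨κ, hκ⟩ : ∃ κ : ℕ, κ = ⌈8 * C / η⌉₊ + 1 := ⟨_, rfl⟩
  have hκ1 : 1 ≤ κ := by omega
  have hκr : 8 * C / η ≤ κ := by
    rw [hκ]
    push_cast
    have := Nat.le_ceil (8 * C / η)
    linarith
  obtain ⟨g, hg⟩ : ∃ g, g = min (h₁ / 2) (η / (16 * m * (C + 1))) := ⟨_, rfl⟩
  have hg0 : 0 < g := by
    rw [hg]
    exact lt_min (by linarith) (by positivity)
  have hgh : g ≤ h₁ / 2 := by rw [hg]; exact min_le_left _ _
  have hgC : C * m * g ≤ η / 16 := by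
    have h1 : g ≤ η / (16 * m * (C + 1)) := by rw [hg]; exact min_le_right _ _
    have h2 : C * m * g ≤ (C + 1) * m * (η / (16 * m * (C + 1))) := by
      refine mul_le_mul ?_ h1 hg0.le (by positivity)
      exact mul_le_mul_of_nonneg_right (by linarith) (by linarith)
    refine h2.trans (le_of_eq ?_)
    field_simp
  obtain ⟨ψ, hψ, hSp⟩ := hs g hg0
  obtain ⟨γ₀, hγ₀⟩ : ∃ γ₀ : ℕ, (m.factorial : ℝ) * (8 * m) ^ m ≤ 2 ^ γ₀ :=
    (pow_unbounded_of_one_lt _ (by norm_num)).imp fun _ h => h.le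
  -- the size of `J`
  obtain ⟨J₁, hJ₁⟩ := exists_nat_gt (2 / h₁)
  obtain ⟨J₂, hJ₂⟩ := exists_nat_gt (8 * (C * (γ₀ + κ + 1)) / η)
  obtain ⟨J₃, hJ₃⟩ : ∃ J₃ : ℕ, ∀ J : ℕ, J₃ ≤ J → C * (2 * Real.exp (-(ψ * J / 2))) ≤ η / 8 := by
    obtain ⟨J₃, hJ₃⟩ := exists_nat_gt (2 / ψ * Real.log (16 * (C + 1) / η))
    refine ⟨J₃, fun J hJ => ?_⟩
    have h1 : 2 / ψ * Real.log (16 * (C + 1) / η) < J := hJ₃.trans_le (by exact_mod_cast hJ)
    have h2 : Real.log (16 * (C + 1) / η) ≤ ψ * J / 2 := by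
      have h3 : 2 / ψ * Real.log (16 * (C + 1) / η) * (ψ / 2) ≤ J * (ψ / 2) :=
        mul_le_mul_of_nonneg_right h1.le (by positivity)
      have h4 : 2 / ψ * Real.log (16 * (C + 1) / η) * (ψ / 2) = Real.log (16 * (C + 1) / η) := by
        field_simp
      linarith
    have h3 : Real.exp (-(ψ * J / 2)) ≤ η / (16 * (C + 1)) := by
      rw [Real.exp_neg]
      have h5 : 16 * (C + 1) / η ≤ Real.exp (ψ * J / 2) := by
        rw [← Real.log_le_iff_le_exp (by positivity)]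
        exact h2
      have h6 : η / (16 * (C + 1)) = (16 * (C + 1) / η)⁻¹ := by
        rw [inv_div]
      rw [h6]
      exact inv_anti₀ (by positivity) h5
    calc C * (2 * Real.exp (-(ψ * J / 2))) ≤ (C + 1) * (2 * (η / (16 * (C + 1)))) :=
          mul_le_mul (by linarith) (by linarith) (by positivity) (by linarith)
      _ = η / 8 := by
          field_simp
          ring
  obtain ⟨τ, hτ⟩ : ∃ τ, τ = η / (48 * m) := ⟨_, rfl⟩
  have hτ0 : 0 < τ := by rw [hτ]; positivity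
  refine Clg.mp (Clg.of hτ0 (J₁ + J₂ + J₃ + 1) ?_) hSp
  intro J hJ F A hSt hSpA i₁ hCh Γ c a s ha hdet hcl
  have hJr : (0 : ℝ) < J := by exact_mod_cast (by omega : 0 < J)
  obtain ⟨hA, hT⟩ := time_st hτ0.le hSt
  have hq := isLaw_cond F.isLaw hA
  -- nonconcentration
  obtain ⟨k, hk⟩ : ∃ k, k = ⌊g * J⌋₊ := ⟨_, rfl⟩
  obtain ⟨δ, hδ⟩ : ∃ δ : ℝ, δ = 1 / (8 * m * 2 ^ k) := ⟨_, rfl⟩
  have hk1 : (1 : ℝ) ≤ 2 ^ k := one_le_pow₀ (by norm_num)
  have hδ0 : 0 < δ := by rw [hδ]; positivity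
  have hδ1 : δ < 1 / 2 := by
    rw [hδ, div_lt_div_iff₀ (by positivity) (by norm_num)]
    nlinarith
  have hkh : k + 1 ≤ ⌊h₁ * J⌋₊ := by
    refine Nat.le_floor ?_
    push_cast
    have h1 : (k : ℝ) ≤ g * J := by rw [hk]; exact Nat.floor_le (by positivity)
    have h2 : g * J ≤ h₁ / 2 * J := mul_le_mul_of_nonneg_right hgh hJr.le
    have h3 : 2 / h₁ < J := hJ₁.trans_le (by exact_mod_cast (by omega : J₁ ≤ J))
    rw [div_lt_iff₀ hh] at h3
    linarith
  have hslab : 1 / 2 ^ ⌊h₁ * J⌋₊ + 2 * m * δ ≤ 1 / 2 ^ ⌊g * J⌋₊ := by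
    rw [← hk]
    have h1 : (1 : ℝ) / 2 ^ ⌊h₁ * J⌋₊ ≤ 1 / 2 ^ (k + 1) := inv_mono hkh
    have h2 : (1 : ℝ) / 2 ^ (k + 1) = 1 / 2 ^ k / 2 := by rw [pow_succ]; field_simp
    have h3 : 2 * m * δ = 1 / 2 ^ k / 4 := by
      rw [hδ]
      field_simp
      norm_num
    have h4 : (0 : ℝ) < 1 / 2 ^ k := by positivity
    linarith
  obtain ⟨hst, hns⟩ := slb_of_sp hCh hSpA hδ1 hslab hψ.le 0
  obtain ⟨e, he0, he1, -, he3⟩ := ncf_of_stb F.isLaw hA (slam F 0) (Fam.pt F) (lB (chI i₁)) hst hns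
  have hγ : (m.factorial : ℝ) ≤ δ ^ m * 2 ^ (m * k + γ₀) := by
    have h1 : δ ^ m * 2 ^ (m * k + γ₀) = 2 ^ γ₀ / (8 * m) ^ m := by
      rw [hδ, div_pow, one_pow, mul_pow, pow_add, mul_comm m k, pow_mul]
      field_simp
    rw [h1, le_div_iff₀ (by positivity)]
    exact hγ₀
  have h1 := hcore J F i₁ A κ (m * k + γ₀) δ (2 * Real.exp (-(ψ * J / 2))) e Γ c hA hdet hδ0 he0
    he1 he3 hγ hκ1
  have h2 := time_ent F hq ha c (e := 6 * τ * J) hT hcl
  have h3 := mul_le_mul_of_nonneg_left h2 (by linarith : (0 : ℝ) ≤ m)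
  -- the errors
  have e1 : (m : ℝ) * (6 * τ * J) = η / 8 * J := by
    rw [hτ]
    field_simp
    ring
  have e2 : C * (J / κ) ≤ η / 8 * J := by
    have hκp : (0 : ℝ) < κ := by exact_mod_cast hκ1
    have h4 : 8 * C ≤ κ * η := by
      rw [div_le_iff₀ hη] at hκr
      exact hκr
    rw [mul_div_assoc', div_le_iff₀ hκp]
    have h5 := mul_le_mul_of_nonneg_right h4 hJr.le
    linarith
  have e3 : C * ((m * k + γ₀ : ℕ) : ℝ) ≤ η / 16 * J + C * γ₀ := by
    push_cast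
    have h4 : (k : ℝ) ≤ g * J := by rw [hk]; exact Nat.floor_le (by positivity)
    have h5 : C * m * k ≤ C * m * (g * J) := mul_le_mul_of_nonneg_left h4 (by positivity)
    have h6 : C * m * (g * J) ≤ η / 16 * J := by
      calc C * m * (g * J) = C * m * g * J := by ring
        _ ≤ _ := mul_le_mul_of_nonneg_right hgC hJr.le
    linarith
  have e4 : C * (γ₀ + κ + 1) ≤ η / 8 * J := by
    have h4 : 8 * (C * (γ₀ + κ + 1)) / η < J :=
      hJ₂.trans_le (by exact_mod_cast (by omega : J₂ ≤ J))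
    rw [div_lt_iff₀ hη] at h4
    linarith
  have e5 : C * (2 * Real.exp (-(ψ * J / 2)) * J) ≤ η / 8 * J := by
    have h4 := mul_le_mul_of_nonneg_right (hJ₃ J (by omega)) hJr.le
    linarith
  have e6 : C * (J / κ + ((m * k + γ₀ : ℕ) : ℝ) + κ + 1 + 2 * Real.exp (-(ψ * J / 2)) * J) =
      C * (J / κ) + C * ((m * k + γ₀ : ℕ) : ℝ) + (C * (γ₀ + κ + 1) - C * γ₀) +
        C * (2 * Real.exp (-(ψ * J / 2)) * J) := by ring
  rw [e6] at h1
  have e7 : (m : ℝ) * (((J : ℝ) - a) * Real.log 2 - s - 6 * τ * J) =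
      m * (((J : ℝ) - a) * Real.log 2 - s) - m * (6 * τ * J) := by ring
  rw [e7] at h3
  have e8 : 0 < η * J := by positivity
  linarith

end Pool.SLO
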