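import Pool.Agent.H59.M5.Mkf
import Pool.Agent.H7.SLP.H5S

/-!
# (MK): tangential digits given the time, nested contexts
-/

set_option autoImplicit false

namespace Pool.SLO

open Finset Real
open Pool.Agent.H49.Ent Pool.Agent.H32.Dense Pool.STK Pool.KA Pool.KSAT Pool.K2S Pool.PB
open Pool.SLP

variable {m J : ℕ}

/-- The cell of the base point: tangential digits and time digits. -/
theorem bc_iff (F : Fam m J) (i₁ : Fin m) {r : ℕ} (hr : r ≤ J) (ω ω' : F.Ω) :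
    bc F i₁ r ω = bc F i₁ r ω' ↔
      tdg i₁ r F.x ω = tdg i₁ r F.x ω' ∧ F.T1 r ω = F.T1 r ω' := by
  constructor
  · intro h
    constructor
    · funext i
      by_cases hi : i = i₁
      · unfold tdg
        rw [if_pos hi, if_pos hi]
      · have h1 := congrFun h i
        rw [bc_ne F i₁ r ω hi, bc_ne F i₁ r ω' hi] at h1
        unfold tdg
        rw [if_neg hi, if_neg hi]
        exact h1
    · have h1 := congrFun h i₁
      rw [bc_time F i₁ hr, bc_time F i₁ hr] at h1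
      exact_mod_cast h1
  · rintro ⟨h1, h2⟩
    funext i
    by_cases hi : i = i₁
    · subst hi
      rw [bc_time F i hr, bc_time F i hr, h2]
    · rw [bc_ne F i₁ r ω hi, bc_ne F i₁ r ω' hi]
      have h3 := congrFun h1 i
      unfold tdg at h3
      rw [if_neg hi, if_neg hi] at h3
      exact h3

/-- Coarser cells. -/
theorem bc_coarse (F : Fam m J) (i₁ : Fin m) {r r' : ℕ} (h : r ≤ r') (hr : r' ≤ J) {ω ω' : F.Ω}
    (e : bc F i₁ r' ω = bc F i₁ r' ω') : bc F i₁ r ω = bc F i₁ r ω' := by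
  rw [bc_iff F i₁ hr] at e
  rw [bc_iff F i₁ (h.trans hr)]
  exact ⟨tdg_mono i₁ h F.x e.1, Rows.T1_det F h hr e.2⟩

/-- Digits of the time. -/
theorem T1_ch (F : Fam m J) {p : F.Ω → ℝ} (hp : IsLaw p) {a r : ℕ} (h : a ≤ r) (hr : r ≤ J)
    {B : Type} (b : F.Ω → B) (hb : Det p b (F.T1 a)) :
    CH p (F.T1 r) b ≤ ((r : ℝ) - a) * Real.log 2 := by
  classical
  have hp0 := hp.nonneg
  have h0 := CH_le_card hp0 hp.sum_one (F.T1 r) (fun ω => (F.T1 a ω, b ω))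
    (fun g => (Finset.range (2 ^ (r - a))).image fun k => 2 ^ (r - a) * g.1 + k) (by
      intro ω _
      rw [Finset.mem_image]
      have e1 : F.T1 a ω = F.T1 r ω / 2 ^ (r - a) := by
        unfold Fam.T1
        rw [Nat.div_div_eq_div_mul, ← pow_add]
        congr 2
        omega
      refine ⟨F.T1 r ω % 2 ^ (r - a), Finset.mem_range.2 (Nat.mod_lt _ (by positivity)), ?_⟩
      rw [e1]
      exact Nat.div_add_mod _ _)
  have h1 : CH p (F.T1 r) b = CH p (F.T1 r) (fun ω => (F.T1 a ω, b ω)) := by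
    refine CH_congr hp0 (fun ω ω' _ _ h => (Prod.ext_iff.1 h).1)
      (fun ω ω' _ _ h => (Prod.ext_iff.1 h).1) ?_ (fun ω ω' _ _ h => (Prod.ext_iff.1 h).2)
    intro ω ω' a1 a2 hh
    exact Prod.ext (hb ω ω' a1 a2 hh) hh
  rw [h1]
  refine h0.trans ?_
  have e1 : Ex p (fun _ : F.Ω => ((r : ℝ) - a) * Real.log 2) = ((r : ℝ) - a) * Real.log 2 :=
    Ex_const hp.sum_one _
  rw [← e1]
  refine Ex_mono hp0 fun ω _ => ?_
  rw [Finset.card_image_of_injective _ (add_right_injective _), Finset.card_range]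
  push_cast
  rw [Real.log_pow, Nat.cast_sub h]

/-- Digits of the base point. -/
theorem bc_ch (F : Fam m J) {p : F.Ω → ℝ} (hp : IsLaw p) (i₁ : Fin m) {a r : ℕ} (h : a ≤ r)
    (hr : r ≤ J) {B : Type} (b : F.Ω → B) (hb : Det p b (bc F i₁ a)) :
    CH p (bc F i₁ r) b ≤ m * (((r : ℝ) - a) * Real.log 2) := by
  have hp0 := hp.nonneg
  have h1 : CH p (bc F i₁ r) b ≤ CH p (fun ω => (tdg i₁ r F.x ω, F.T1 r ω)) b := by
    refine CH_mono_left hp0 ?_
    intro ω ω' _ _ hh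
    have e := Prod.ext_iff.1 (Prod.ext_iff.1 hh).1
    exact (bc_iff F i₁ hr ω ω').2 ⟨e.1, e.2⟩
  have h2 := CH_chain hp0 (tdg i₁ r F.x) (F.T1 r) b
  have h3 := T1_ch F hp h hr b (fun ω ω' a1 a2 hh =>
    ((bc_iff F i₁ (h.trans hr) ω ω').1 (hb ω ω' a1 a2 hh)).2)
  have h4 := tdg_ch hp i₁ F.x h (fun ω => (F.T1 r ω, b ω)) (fun ω ω' a1 a2 hh =>
    ((bc_iff F i₁ (h.trans hr) ω ω').1 (hb ω ω' a1 a2 (Prod.ext_iff.1 hh).2)).1)
  have h5 : (m : ℝ) * (((r : ℝ) - a) * Real.log 2) =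
      ((r : ℝ) - a) * Real.log 2 + ((m : ℝ) - 1) * (((r : ℝ) - a) * Real.log 2) := by ring
  linarith

section mkf

variable {F : Fam m J} {i₁ : Fin m} {η : ℝ} {A : F.Ω → Prop}

/-- **Blocks of the base point.** -/
theorem Mkf.cell (h : Mkf F i₁ η A) (hA : 0 < Pe F.p A) {Γ : Type} (c : F.Ω → Γ) {a Q : ℕ}
    {s : ℝ} (haQ : a ≤ Q) (hQ : Q ≤ J)
    (hc : Det (Pool.Agent.H49.Ent.cond F.p A True) (Fam.pt F) c)
    (hs : CH (Pool.Agent.H49.Ent.cond F.p A True) c (slam F a) ≤ s) :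
    m * (((Q : ℝ) - a) * Real.log 2 - s) - η * J ≤
      CH (Pool.Agent.H49.Ent.cond F.p A True) (bc F i₁ Q) c := by
  have hq := isLaw_cond F.isLaw hA
  have h1 := h Γ c a s (haQ.trans hQ) hc hs
  have h2 := CH_le_add hq.nonneg (bc F i₁ J) (bc F i₁ Q) c
  have h3 := bc_ch F hq i₁ hQ le_rfl (fun ω => (bc F i₁ Q ω, c ω))
    (fun ω ω' _ _ hh => (Prod.ext_iff.1 hh).1)
  have h4 : (m : ℝ) * (((J : ℝ) - a) * Real.log 2 - s) -
      m * (((J : ℝ) - Q) * Real.log 2) = m * (((Q : ℝ) - a) * Real.log 2 - s) := by ring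
  linarith

/-- **Blocks of tangential digits, given the time.** -/
theorem Mkf.tan (h : Mkf F i₁ η A) (hA : 0 < Pe F.p A) {Γ : Type} (c : F.Ω → Γ) {a Q : ℕ}
    {s : ℝ} (haQ : a ≤ Q) (hQ : Q ≤ J)
    (hc : Det (Pool.Agent.H49.Ent.cond F.p A True) (Fam.pt F) c)
    (hcT : Det (Pool.Agent.H49.Ent.cond F.p A True) c (F.T1 a))
    (hs : CH (Pool.Agent.H49.Ent.cond F.p A True) c (slam F a) ≤ s) :
    ((m : ℝ) - 1) * (((Q : ℝ) - a) * Real.log 2) - (m * s + η * J) ≤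
      CH (Pool.Agent.H49.Ent.cond F.p A True) (tdg i₁ Q F.x) (fun ω => (F.T ω, c ω)) := by
  have hq := isLaw_cond F.isLaw hA
  have hq0 := hq.nonneg
  have h1 := h Γ c a s (haQ.trans hQ) hc hs
  -- the cell and the time
  have h2 : CH (Pool.Agent.H49.Ent.cond F.p A True) (bc F i₁ J) c ≤
      CH (Pool.Agent.H49.Ent.cond F.p A True) (fun ω => (tdg i₁ J F.x ω, F.T1 J ω)) c := by
    refine CH_mono_left hq0 ?_
    intro ω ω' _ _ hh
    have e := Prod.ext_iff.1 (Prod.ext_iff.1 hh).1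
    exact (bc_iff F i₁ le_rfl ω ω').2 ⟨e.1, e.2⟩
  have h3 := CH_chain hq0 (tdg i₁ J F.x) (F.T1 J) c
  have h4 := T1_ch F hq (haQ.trans hQ) le_rfl c hcT
  have h5 := CH_le_add hq0 (tdg i₁ J F.x) (tdg i₁ Q F.x) (fun ω => (F.T1 J ω, c ω))
  have h6 := tdg_ch hq i₁ F.x hQ (fun ω => (tdg i₁ Q F.x ω, (F.T1 J ω, c ω)))
    (fun ω ω' _ _ hh => (Prod.ext_iff.1 hh).1)
  have h7 : CH (Pool.Agent.H49.Ent.cond F.p A True) (tdg i₁ Q F.x)
      (fun ω => (F.T1 J ω, c ω)) ≤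
      CH (Pool.Agent.H49.Ent.cond F.p A True) (tdg i₁ Q F.x) (fun ω => (F.T ω, c ω)) := by
    refine CH_mono_cond hq0 ?_
    intro ω ω' _ _ hh
    have e := Prod.ext_iff.1 hh
    refine Prod.ext ?_ e.2
    have e1 : F.T1 J ω = F.T1 J ω' := e.1
    unfold Fam.T1 at e1
    rw [Nat.sub_self, pow_zero, Nat.div_one, Nat.div_one] at e1
    exact e1
  have h8 : (m : ℝ) * (((J : ℝ) - a) * Real.log 2 - s) - η * J -
      ((J : ℝ) - a) * Real.log 2 - ((m : ℝ) - 1) * (((J : ℝ) - Q) * Real.log 2) =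
      ((m : ℝ) - 1) * (((Q : ℝ) - a) * Real.log 2) - (m * s + η * J) := by ring
  linarith

/-- **(MK) along nested contexts**, with additional information `D` about the line. -/
theorem Mkf.sum (h : Mkf F i₁ η A) (hA : 0 < Pe F.p A) {n : ℕ} (a : ℕ → ℕ) (Γ : ℕ → Type)
    (c : ∀ i, F.Ω → Γ i) {Δ : Type} (D : F.Ω → Δ) {s : ℝ} (ha : ∀ i < n, a i ≤ a (i + 1))
    (hJ : ∀ i ≤ n, a i ≤ J)
    (hc : ∀ i < n, Det (Pool.Agent.H49.Ent.cond F.p A True) (Fam.pt F) (c i))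
    (hcT : ∀ i < n, Det (Pool.Agent.H49.Ent.cond F.p A True) (c i) (F.T1 (a i)))
    (hcc : ∀ i < n, Det (Pool.Agent.H49.Ent.cond F.p A True) (fun ω => (F.T ω, c (i + 1) ω))
      (fun ω => (c i ω, tdg i₁ (a (i + 1)) F.x ω)))
    (hs : ∀ i < n, CH (Pool.Agent.H49.Ent.cond F.p A True) (c i) (slam F (a i)) ≤ s) :
    ∑ i ∈ range n, (((m : ℝ) - 1) * (((a (i + 1) : ℝ) - a i) * Real.log 2) -
      CH (Pool.Agent.H49.Ent.cond F.p A True) (tdg i₁ (a (i + 1)) F.x)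
        (fun ω => ((F.T ω, c i ω), D ω))) ≤
      n * (m * s + η * J) + CH (Pool.Agent.H49.Ent.cond F.p A True) D
        (fun ω => (F.T ω, c 0 ω)) := by
  have hq := isLaw_cond F.isLaw hA
  have hq0 := hq.nonneg
  obtain ⟨ψ, hψ⟩ : ∃ ψ : ℕ → ℝ, ψ = fun i => CH (Pool.Agent.H49.Ent.cond F.p A True) D
    (fun ω => (F.T ω, c i ω)) := ⟨_, rfl⟩
  have key : ∀ i < n, ((m : ℝ) - 1) * (((a (i + 1) : ℝ) - a i) * Real.log 2) -
      CH (Pool.Agent.H49.Ent.cond F.p A True) (tdg i₁ (a (i + 1)) F.x)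
        (fun ω => ((F.T ω, c i ω), D ω)) ≤ (m * s + η * J) + (ψ i - ψ (i + 1)) := by
    intro i hi
    have h1 := h.tan hA (c i) (ha i hi) (hJ (i + 1) hi) (hc i hi) (hcT i hi) (hs i hi)
    have h2 := CH_chain hq0 (tdg i₁ (a (i + 1)) F.x) D (fun ω => (F.T ω, c i ω))
    have h3 := CH_chain hq0 D (tdg i₁ (a (i + 1)) F.x) (fun ω => (F.T ω, c i ω))
    have h4 : CH (Pool.Agent.H49.Ent.cond F.p A True)
        (fun ω => (tdg i₁ (a (i + 1)) F.x ω, D ω)) (fun ω => (F.T ω, c i ω)) =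
        CH (Pool.Agent.H49.Ent.cond F.p A True)
        (fun ω => (D ω, tdg i₁ (a (i + 1)) F.x ω)) (fun ω => (F.T ω, c i ω)) := by
      refine CH_congr hq0 ?_ ?_ (fun ω ω' _ _ hh => hh) (fun ω ω' _ _ hh => hh)
      · intro ω ω' _ _ hh
        have e := Prod.ext_iff.1 (Prod.ext_iff.1 hh).1
        exact Prod.ext e.2 e.1
      · intro ω ω' _ _ hh
        have e := Prod.ext_iff.1 (Prod.ext_iff.1 hh).1
        exact Prod.ext e.2 e.1
    have h5 : CH (Pool.Agent.H49.Ent.cond F.p A True) (tdg i₁ (a (i + 1)) F.x)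
        (fun ω => (D ω, (F.T ω, c i ω))) =
        CH (Pool.Agent.H49.Ent.cond F.p A True) (tdg i₁ (a (i + 1)) F.x)
        (fun ω => ((F.T ω, c i ω), D ω)) := by
      refine CH_congr hq0 (fun ω ω' _ _ hh => (Prod.ext_iff.1 hh).1)
        (fun ω ω' _ _ hh => (Prod.ext_iff.1 hh).1) ?_ ?_
      · intro ω ω' _ _ hh
        have e := Prod.ext_iff.1 hh
        exact Prod.ext e.2 e.1
      · intro ω ω' _ _ hh
        have e := Prod.ext_iff.1 hh
        exact Prod.ext e.2 e.1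
    have h6 : CH (Pool.Agent.H49.Ent.cond F.p A True) D (fun ω => (F.T ω, c (i + 1) ω)) ≤
        CH (Pool.Agent.H49.Ent.cond F.p A True) D
          (fun ω => (tdg i₁ (a (i + 1)) F.x ω, (F.T ω, c i ω))) := by
      refine CH_mono_cond hq0 ?_
      intro ω ω' a1 a2 hh
      have e := Prod.ext_iff.1 (hcc i hi ω ω' a1 a2 hh)
      exact Prod.ext e.2 (Prod.ext (Prod.ext_iff.1 hh).1 e.1)
    rw [hψ]
    simp only
    linarith
  have h1 := Finset.sum_le_sum (s := range n) fun i hi => key i (Finset.mem_range.1 hi)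
  refine h1.trans ?_
  rw [Finset.sum_add_distrib, Finset.sum_const, Finset.card_range, nsmul_eq_mul,
    Finset.sum_range_sub']
  have h2 : 0 ≤ ψ n := by
    rw [hψ]
    exact CH_nonneg hq0 _ _
  have h3 : ψ 0 = CH (Pool.Agent.H49.Ent.cond F.p A True) D (fun ω => (F.T ω, c 0 ω)) := by
    rw [hψ]
  linarith

end mkf

end Pool.SLO
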